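import Pool.Agent.H13.Gap.Hom

/-!
# The averaged differential is nearly constant on the sphere
-/

set_option autoImplicit false

open Set Filter Topology Metric Function MeasureTheory
open scoped ContDiff Convolution

noncomputable section

namespace Pool.Agent.H13.Gap

open Pool.Agent.Q196.NP

section abstract

variable {W : Type*} [NormedAddCommGroup W] [InnerProductSpace ℝ W] [FiniteDimensional ℝ W]
  [MeasurableSpace W] [BorelSpace W]

/-- shrinking the ball -/
lemma scale_le {g : W → ℝ} (hg : IntegrableOn g (closedBall (0 : W) 1)) (hg0 : ∀ t, 0 ≤ g t)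
    {r : ℝ} (hr : 0 < r) {y : W} (hy : r + ‖y‖ ≤ 1) :
    ∫ t in closedBall (0 : W) 1, g (r • t + y) ≤
      (r ^ Module.finrank ℝ W)⁻¹ * ∫ t in closedBall (0 : W) 1, g t := by
  set B := closedBall (0 : W) 1 with hB
  have hBm : MeasurableSet B := measurableSet_closedBall
  set h : W → ℝ := B.indicator g with hh
  have hhi : Integrable h := (integrable_indicator_iff hBm).2 hg
  have h1 : ∫ t, h (r • t + y) = (r ^ Module.finrank ℝ W)⁻¹ * ∫ t in B, g t := by
    have e1 := Measure.integral_comp_smul (volume : Measure W) (fun x => h (x + y)) r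
    have e2 : (∫ x, h (x + y)) = ∫ x, h x := integral_add_right_eq_self h y
    rw [e2, hh, integral_indicator hBm] at e1
    rw [e1, smul_eq_mul, abs_of_pos (by positivity)]
  have hhy : Integrable fun x => h (x + y) := hhi.comp_add_right y
  have hcomp : Integrable fun t => h (r • t + y) := hhy.comp_smul hr.ne'
  have hh0 : ∀ t, 0 ≤ h t := fun t => indicator_nonneg (fun t _ => hg0 t) t
  rw [← h1, ← integral_indicator hBm]
  refine integral_mono_of_nonneg (Eventually.of_forall fun t => indicator_nonneg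
    (fun t _ => hg0 _) t) hcomp (Eventually.of_forall fun t => ?_)
  show B.indicator (fun t => g (r • t + y)) t ≤ h (r • t + y)
  by_cases ht : t ∈ B
  · rw [indicator_of_mem ht, hh, indicator_of_mem]
    rw [hB, mem_closedBall_zero_iff] at ht ⊢
    calc ‖r • t + y‖ ≤ ‖r • t‖ + ‖y‖ := norm_add_le _ _
      _ ≤ r + ‖y‖ := by
          rw [norm_smul, Real.norm_of_nonneg hr.le]
          nlinarith
      _ ≤ 1 := hy
  · rw [indicator_of_notMem ht]
    exact hh0 _

/-- the constant in the comparison of neighbours -/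
def kn (W : Type*) [NormedAddCommGroup W] [InnerProductSpace ℝ W] [FiniteDimensional ℝ W]
    [MeasurableSpace W] [BorelSpace W] : ℝ := kb W * 2 ^ Module.finrank ℝ W

lemma kn_pos : 0 < kn W := by
  unfold kn
  have := kb_pos (W := W)
  positivity

lemma kb_le_kn : kb W ≤ kn W := by
  unfold kn
  have h1 : (1:ℝ) ≤ 2 ^ Module.finrank ℝ W := one_le_pow₀ (by norm_num)
  nlinarith [kb_pos (W := W)]

/-- neighbours -/
lemma neighbour {F : W → W} (hFs : ContDiffOn ℝ ∞ F {0}ᶜ)
    (hom : ∀ r : ℝ, 0 ≤ r → ∀ v, F (r • v) = r • F v) {κ : ℝ}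
    (hκ : ∀ v, ‖v‖ = 1 → ∀ s, 0 < s → s ≤ 1 / 4 → Small F κ s v) {x : W} (hx : 1 / 2 ≤ ‖x‖) :
    ∃ C : W →L[ℝ] W, ∀ x', ‖x' - x‖ ≤ 1 / 16 →
      ‖av (1 / 16) (fderiv ℝ F) x' - C‖ ≤ kn W * κ := by
  have hx0 : x ≠ 0 := norm_ne_zero_iff.1 (by linarith)
  have hxp : 0 < ‖x‖ := by linarith
  have hs1 : 0 < 1 / (8 * ‖x‖) := by positivity
  have hs2 : 1 / (8 * ‖x‖) ≤ 1 / 4 := by
    rw [div_le_div_iff₀ (by positivity) (by norm_num)]
    linarith
  obtain ⟨C, hC⟩ := hκ (‖x‖⁻¹ • x) (by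
    rw [norm_smul, norm_inv, norm_norm, inv_mul_cancel₀ hxp.ne']) _ hs1 hs2
  refine ⟨C, fun x' hx' => ?_⟩
  have hne : ∀ t ∈ closedBall (0 : W) 1, ‖x‖⁻¹ • x - (1 / (8 * ‖x‖)) • t ≠ 0 := by
    intro t ht h0
    rw [mem_closedBall_zero_iff] at ht
    have h3 := congrArg norm (sub_eq_zero.1 h0)
    rw [norm_smul, norm_inv, norm_norm, inv_mul_cancel₀ hxp.ne', norm_smul,
      Real.norm_of_nonneg hs1.le] at h3
    nlinarith [norm_nonneg t]
  have hC2 : ∫ t in closedBall (0 : W) 1, ‖fderiv ℝ F (x - (1 / 8 : ℝ) • t) - C‖ ≤ κ := by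
    refine le_of_eq_of_le ?_ hC
    refine setIntegral_congr_fun measurableSet_closedBall fun t ht => ?_
    show ‖fderiv ℝ F (x - (1 / 8 : ℝ) • t) - C‖ =
      ‖fderiv ℝ F (‖x‖⁻¹ • x - (1 / (8 * ‖x‖)) • t) - C‖
    rw [← fderiv_hom hFs hom (hne t ht) hxp]
    congr 3
    rw [smul_sub, smul_smul, smul_smul, mul_inv_cancel₀ hxp.ne', one_smul]
    congr 2
    field_simp
  have hx'n : (1:ℝ) / 16 < ‖x'‖ := by
    have := norm_sub_norm_le x x'
    rw [norm_sub_rev] at this
    linarith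
  have hi := int_fderiv hFs (show (0:ℝ) < 1 / 16 by norm_num) hx'n
  have hi2 := int_fderiv hFs (show (0:ℝ) < 1 / 8 by norm_num) (x := x) (by linarith)
  have hcI : IntegrableOn (fun _ : W => C) (closedBall (0 : W) 1) :=
    (continuousOn_const).integrableOn_compact (isCompact_closedBall (0:W) 1)
  have key := scale_le (g := fun t => ‖fderiv ℝ F (x - (1 / 8 : ℝ) • t) - C‖)
    ((hi2.sub hcI).norm) (fun t => norm_nonneg _) (show (0:ℝ) < 1 / 2 by norm_num)
    (y := (8:ℝ) • (x - x')) (by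
      rw [norm_smul, norm_sub_rev, Real.norm_of_nonneg (by norm_num)]
      linarith)
  have h4 : ∫ t in closedBall (0 : W) 1, ‖fderiv ℝ F (x' - (1 / 16 : ℝ) • t) - C‖ ≤
      2 ^ Module.finrank ℝ W * κ := by
    have e1 : ∀ t : W, x - (1 / 8 : ℝ) • ((1 / 2 : ℝ) • t + (8:ℝ) • (x - x')) =
        x' - (1 / 16 : ℝ) • t := by
      intro t
      rw [smul_add, smul_smul, smul_smul]
      norm_num
      abel
    simp only [e1] at key
    refine key.trans ?_
    rw [← inv_pow]
    norm_num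
    exact hC2
  have h5 := av_close hi h4
  unfold kn
  rw [mul_assoc]
  exact h5

/-- the averaged differentials at orthogonal unit vectors (or at unit vectors with a nonnegative
inner product) are close -/
lemma quarter {F : W → W} (hFs : ContDiffOn ℝ ∞ F {0}ᶜ)
    (hom : ∀ r : ℝ, 0 ≤ r → ∀ v, F (r • v) = r • F v) {κ : ℝ}
    (hκ : ∀ v, ‖v‖ = 1 → ∀ s, 0 < s → s ≤ 1 / 4 → Small F κ s v) {v u : W} (hv : ‖v‖ = 1)
    (hu : ‖u‖ = 1) (huv : (0:ℝ) ≤ inner ℝ v u) :
    ‖av (1 / 16) (fderiv ℝ F) u - av (1 / 16) (fderiv ℝ F) v‖ ≤ 48 * (kn W * κ) := by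
  set x : ℕ → W := fun j => v + ((j : ℝ) / 24) • (u - v) with hx
  have hd : ‖u - v‖ ^ 2 ≤ 2 := by
    rw [@norm_sub_sq_real, hu, hv, real_inner_comm]
    nlinarith
  have hd' : ‖u - v‖ ≤ 3 / 2 := by nlinarith [norm_nonneg (u - v)]
  have hxn : ∀ j, j ≤ 24 → 1 / 2 ≤ ‖x j‖ := by
    intro j hj
    have hj1 : (j : ℝ) / 24 ≤ 1 := by
      rw [div_le_one (by norm_num)]
      exact_mod_cast hj
    have hj0 : 0 ≤ (j : ℝ) / 24 := by positivity
    set a := (j : ℝ) / 24
    have e1 : x j = (1 - a) • v + a • u := by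
      show v + a • (u - v) = _
      rw [smul_sub, sub_smul, one_smul]
      abel
    have e2 : ‖x j‖ ^ 2 = (1 - a) ^ 2 + a ^ 2 + 2 * ((1 - a) * a * inner ℝ v u) := by
      rw [e1, @norm_add_sq_real, norm_smul, norm_smul, hv, hu, real_inner_smul_left,
        real_inner_smul_right, mul_one, mul_one, Real.norm_eq_abs, Real.norm_eq_abs, sq_abs, sq_abs]
      ring
    have e3 : 0 ≤ (1 - a) * a * inner ℝ v u := by
      have : 0 ≤ 1 - a := by linarith
      positivity
    have e4 : (1 / 2 : ℝ) ^ 2 ≤ ‖x j‖ ^ 2 := by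
      rw [e2]
      nlinarith [sq_nonneg (2 * a - 1)]
    exact (pow_le_pow_iff_left₀ (by norm_num) (norm_nonneg _) two_ne_zero).1 e4
  have key : ∀ j, j ≤ 24 → ‖av (1 / 16) (fderiv ℝ F) (x j) - av (1 / 16) (fderiv ℝ F) v‖ ≤
      2 * j * (kn W * κ) := by
    intro j
    induction j with
    | zero =>
      intro _
      have : x 0 = v := by
        show v + (((0:ℕ) : ℝ) / 24) • (u - v) = v
        simp
      rw [this]
      simp
    | succ j ih =>
      intro hj
      obtain ⟨C, hC⟩ := neighbour hFs hom hκ (hxn j (by omega))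
      have h1 := hC (x j) (by rw [sub_self, norm_zero]; norm_num)
      have h2 := hC (x (j + 1)) (by
        have : x (j + 1) - x j = (1 / 24 : ℝ) • (u - v) := by
          show v + (((j + 1 : ℕ) : ℝ) / 24) • (u - v) - (v + ((j : ℝ) / 24) • (u - v)) = _
          rw [add_sub_add_left_eq_sub, ← sub_smul]
          congr 1
          push_cast
          ring
        rw [this, norm_smul, Real.norm_of_nonneg (by norm_num)]
        linarith)
      have h3 := ih (by omega)
      have e : av (1 / 16) (fderiv ℝ F) (x (j + 1)) - av (1 / 16) (fderiv ℝ F) v =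
          (av (1 / 16) (fderiv ℝ F) (x (j + 1)) - C) - (av (1 / 16) (fderiv ℝ F) (x j) - C) +
          (av (1 / 16) (fderiv ℝ F) (x j) - av (1 / 16) (fderiv ℝ F) v) := by abel
      rw [e]
      calc _ ≤ ‖(av (1 / 16) (fderiv ℝ F) (x (j + 1)) - C) -
              (av (1 / 16) (fderiv ℝ F) (x j) - C)‖ +
              ‖av (1 / 16) (fderiv ℝ F) (x j) - av (1 / 16) (fderiv ℝ F) v‖ := norm_add_le _ _
        _ ≤ (kn W * κ + kn W * κ) + 2 * j * (kn W * κ) := by
              refine add_le_add ((norm_sub_le _ _).trans (add_le_add h2 h1)) h3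
        _ = _ := by push_cast; ring
  have h24 := key 24 le_rfl
  have : x 24 = u := by
    show v + (((24:ℕ) : ℝ) / 24) • (u - v) = u
    push_cast
    rw [div_self (by norm_num), one_smul]
    abel
  rw [this] at h24
  push_cast at h24
  linarith

end abstract

section complex

variable {n : ℕ}

instance : MeasurableSpace (V n) := inferInstance

/-- multiplication by a complex number of absolute value one -/
lemma av_rot {F : V n → V n} (hFs : ContDiffOn ℝ ∞ F {0}ᶜ)
    (hU : ∀ R ∈ U1 n, ∀ v, F (R v) = R (F v)) {s : ℝ} (hs : 0 < s) {x : V n} (hx : s < ‖x‖)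
    {R : V n ≃ₗᵢ[ℝ] V n} (hR : R ∈ U1 n) (h : V n) :
    av s (fderiv ℝ F) (R x) (R h) = R (av s (fderiv ℝ F) x h) := by
  have h1 := MS_hasFDerivAt hFs hs (x := R x) (by rwa [R.norm_map])
  have h2 := MS_hasFDerivAt hFs hs hx
  have h3 : HasFDerivAt (fun y => MS s F (R y)) ((av s (fderiv ℝ F) (R x)).comp
      (R : V n →L[ℝ] V n)) x := h1.comp x (R : V n →L[ℝ] V n).hasFDerivAt
  have h4 : HasFDerivAt (fun y => R (MS s F y)) ((R : V n →L[ℝ] V n).comp
      (av s (fderiv ℝ F) x)) x := (R : V n →L[ℝ] V n).hasFDerivAt.comp x h2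
  have h5 : (fun y => MS s F (R y)) = fun y => R (MS s F y) := by
    funext y
    exact MS_isom R (hU R hR) hs y
  rw [h5] at h3
  have h6 := h3.unique h4
  have h7 := DFunLike.congr_fun h6 h
  exact h7

/-- the complex linear part of a real linear map -/
def cpart (A : V n →L[ℝ] V n) : V n →ₗ[ℂ] V n where
  toFun h := (1 / 2 : ℂ) • (A h - Complex.I • A (Complex.I • h))
  map_add' x y := by
    simp only [smul_add, map_add, smul_sub]
    abel
  map_smul' c x := by
    have hr : ∀ (r : ℝ) (v : V n), ((r : ℂ)) • v = r • v := fun r v => Complex.coe_smul r v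
    have e1 : ∀ y : V n, A (c • y) = (c.re : ℂ) • A y + (c.im : ℂ) • A (Complex.I • y) := by
      intro y
      have h1 : c • y = c.re • y + c.im • (Complex.I • y) := by
        rw [← hr, ← hr, smul_smul, ← add_smul, Complex.re_add_im]
      rw [h1, map_add, map_smul, map_smul, hr, hr]
    have e2 : Complex.I • (c • x) = c • (Complex.I • x) := smul_comm _ _ _
    have e3 : A (Complex.I • Complex.I • x) = - A x := by
      rw [smul_smul, Complex.I_mul_I, neg_one_smul, map_neg]
    rw [RingHom.id_apply, e2, e1, e1, e3]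
    rw [smul_comm c (1 / 2 : ℂ)]
    congr 1
    have e4 : c = (c.re : ℂ) + (c.im : ℂ) * Complex.I := (Complex.re_add_im c).symm
    have e5 : c • (A x - Complex.I • A (Complex.I • x)) =
        ((c.re : ℂ) + (c.im : ℂ) * Complex.I) • (A x - Complex.I • A (Complex.I • x)) := by
      rw [← e4]
    rw [e5]
    match_scalars
    · ring
    · linear_combination (c.im : ℂ) * Complex.I_mul_I

lemma norm_cpart_sub {F : V n → V n} (hFs : ContDiffOn ℝ ∞ F {0}ᶜ)
    (hom : ∀ r : ℝ, 0 ≤ r → ∀ v, F (r • v) = r • F v)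
    (hU : ∀ R ∈ U1 n, ∀ v, F (R v) = R (F v)) {κ : ℝ}
    (hκ : ∀ v, ‖v‖ = 1 → ∀ s, 0 < s → s ≤ 1 / 4 → Small F κ s v) {v : V n} (hv : ‖v‖ = 1)
    (h : V n) : ‖cpart (av (1 / 16) (fderiv ℝ F) v) h - av (1 / 16) (fderiv ℝ F) v h‖ ≤
      24 * (kn (V n) * κ) * ‖h‖ := by
  have hI : ‖Complex.I‖ = 1 := Complex.norm_I
  set R := rot n Complex.I hI with hR
  have hRa : ∀ y, R y = Complex.I • y := fun y => rfl
  have hRm : R ∈ U1 n := ⟨_, hI, rfl⟩
  have h1 := av_rot hFs hU (show (0:ℝ) < 1 / 16 by norm_num) (x := v)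
    (by rw [hv]; norm_num) hRm h
  rw [hRa, hRa, hRa] at h1
  have hin : (0:ℝ) ≤ inner ℝ v (Complex.I • v) := by
    simp only [PiLp.inner_apply]
    refine Finset.sum_nonneg fun i _ => ?_
    show (0:ℝ) ≤ inner ℝ (v i) (Complex.I * v i)
    rw [Complex.inner]
    simp [Complex.mul_re]
    ring_nf
    exact le_rfl
  have h2 := quarter hFs hom hκ hv (u := Complex.I • v) (by rw [norm_smul, hI, hv, one_mul]) hin
  set A := av (1 / 16) (fderiv ℝ F) v
  set A' := av (1 / 16) (fderiv ℝ F) (Complex.I • v)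
  have e1 : cpart A h - A h = (1 / 2 : ℂ) • (Complex.I • (A' (Complex.I • h) - A (Complex.I • h))) := by
    show (1 / 2 : ℂ) • (A h - Complex.I • A (Complex.I • h)) - A h = _
    rw [h1, smul_sub, smul_sub Complex.I, smul_smul Complex.I Complex.I, Complex.I_mul_I,
      neg_one_smul, smul_sub, smul_neg]
    have : A h = (1 / 2 : ℂ) • A h + (1 / 2 : ℂ) • A h := by
      rw [← add_smul]
      norm_num
    nth_rewrite 2 [this]
    abel
  rw [e1, norm_smul, norm_smul, hI, one_mul]
  have h3 : ‖(A' - A) (Complex.I • h)‖ ≤ ‖A' - A‖ * ‖Complex.I • h‖ :=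
    (A' - A).le_opNorm _
  rw [norm_smul, hI, one_mul] at h3
  have h4 : A' (Complex.I • h) - A (Complex.I • h) = (A' - A) (Complex.I • h) := by simp
  rw [h4]
  have h5 : ‖(1 / 2 : ℂ)‖ = 1 / 2 := by norm_num
  rw [h5]
  nlinarith [norm_nonneg h, mul_le_mul_of_nonneg_right h2 (norm_nonneg h)]

end complex

end Pool.Agent.H13.Gap
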