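import Pool.Agent.H13.Gap.Fin

/-!
# Homogeneous maps which are close to each other
-/

set_option autoImplicit false

open Set Filter Topology Metric Function MeasureTheory
open scoped ContDiff ENNReal

noncomputable section

namespace Pool.Agent.H13.Gap

open Pool.Agent.Q196.NP

section abstract

variable {W : Type*} [NormedAddCommGroup W] [InnerProductSpace ℝ W] [FiniteDimensional ℝ W]
  [MeasurableSpace W] [BorelSpace W]

lemma av_as_fderiv {F : W → W} (hFs : ContDiffOn ℝ ∞ F {0}ᶜ) {s : ℝ} (hs : 0 < s) {x : W}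
    (hx : s < ‖x‖) : av s (fderiv ℝ F) x = fderiv ℝ (MS s F) x :=
  (MS_hasFDerivAt hFs hs hx).fderiv.symm

/-- the mollified values and differentials of close maps are close -/
lemma close_moll {F F' : W → W} (hF : Continuous F) (hF' : Continuous F') {δ : ℝ} (hδ : 0 ≤ δ)
    (h : ∀ y, ‖F y - F' y‖ ≤ δ * ‖y‖) {s : ℝ} (hs : 0 < s) (hs1 : s ≤ 1) {x : W} (hx : ‖x‖ = 1) :
    ‖MS s F x - MS s F' x‖ ≤ 2 * δ ∧
      ∀ v, ‖fderiv ℝ (MS s F) x v - fderiv ℝ (MS s F') x v‖ ≤ ck W * (s⁻¹ * (2 * δ)) * ‖v‖ := by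
  have hb : ∀ t ∈ closedBall (0 : W) 1, ‖F (x - s • t) - F' (x - s • t)‖ ≤ 2 * δ := by
    intro t ht
    rw [mem_closedBall_zero_iff] at ht
    refine (h _).trans ?_
    have h1 : ‖x - s • t‖ ≤ 2 := by
      refine (norm_sub_le _ _).trans ?_
      rw [hx, norm_smul, Real.norm_of_nonneg hs.le]
      nlinarith [norm_nonneg t]
    nlinarith
  have hFi : IntegrableOn (fun t => F (x - s • t)) (closedBall (0 : W) 1) :=
    (hF.comp (by fun_prop)).continuousOn.integrableOn_compact (isCompact_closedBall _ _)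
  have hFi' : IntegrableOn (fun t => F' (x - s • t)) (closedBall (0 : W) 1) :=
    (hF'.comp (by fun_prop)).continuousOn.integrableOn_compact (isCompact_closedBall _ _)
  have e1 : ∀ G : W → W, MS s G x = ∫ t in closedBall (0 : W) 1, kr t • G (x - s • t) := by
    intro G
    rw [← av_eq, ← MM_eq hs.ne']
    rfl
  constructor
  · have hsub : MS s F x - MS s F' x =
        ∫ t in closedBall (0 : W) 1, kr t • (F (x - s • t) - F' (x - s • t)) := by
      rw [e1, e1]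
      simp_rw [smul_sub]
      rw [integral_sub (kr_smul_intOn hFi) (kr_smul_intOn hFi')]
    rw [hsub]
    have hkr : IntegrableOn (fun t : W => (kr t : ℝ) * (2 * δ)) (closedBall (0 : W) 1) :=
      (kr_integrable.integrableOn).mul_const _
    calc _ ≤ ∫ t in closedBall (0 : W) 1, (kr t : ℝ) * (2 * δ) := by
          refine norm_integral_le_of_norm_le hkr ?_
          rw [ae_restrict_iff' measurableSet_closedBall]
          refine Eventually.of_forall fun t ht => ?_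
          rw [norm_smul, Real.norm_of_nonneg (kr_nonneg t)]
          exact mul_le_mul_of_nonneg_left (hb t ht) (kr_nonneg t)
      _ = 2 * δ := by rw [integral_mul_const, kr_intOn, one_mul]
  · intro v
    rw [fderiv_MS_apply hF hs, fderiv_MS_apply hF' hs]
    have hc1 : Continuous fun t : W => fderiv ℝ (kr : W → ℝ) t (s⁻¹ • v) :=
      fderiv_kr_cont.clm_apply continuous_const
    have hI : ∀ G : W → W, Continuous G → IntegrableOn
        (fun t => (fderiv ℝ (kr : W → ℝ) t (s⁻¹ • v)) • G (x - s • t)) (closedBall (0 : W) 1) :=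
      fun G hG => (hc1.smul (hG.comp (by fun_prop))).continuousOn.integrableOn_compact
        (isCompact_closedBall _ _)
    rw [← integral_sub (hI F hF) (hI F' hF')]
    have hki : Integrable fun t : W => ‖fderiv ℝ (kr : W → ℝ) t‖ * (s⁻¹ * (2 * δ) * ‖v‖) :=
      fderiv_kr_int.norm.mul_const _
    calc _ ≤ ∫ t in closedBall (0 : W) 1, ‖fderiv ℝ (kr : W → ℝ) t‖ * (s⁻¹ * (2 * δ) * ‖v‖) := by
          refine norm_integral_le_of_norm_le hki.integrableOn ?_
          rw [ae_restrict_iff' measurableSet_closedBall]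
          refine Eventually.of_forall fun t ht => ?_
          rw [← smul_sub, norm_smul]
          have h2 : ‖fderiv ℝ (kr : W → ℝ) t (s⁻¹ • v)‖ ≤ ‖fderiv ℝ (kr : W → ℝ) t‖ * (s⁻¹ * ‖v‖) := by
            refine (ContinuousLinearMap.le_opNorm _ _).trans ?_
            rw [norm_smul, norm_inv, Real.norm_of_nonneg hs.le]
          calc _ ≤ (‖fderiv ℝ (kr : W → ℝ) t‖ * (s⁻¹ * ‖v‖)) * (2 * δ) :=
                mul_le_mul h2 (hb t ht) (norm_nonneg _) (by positivity)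
            _ = _ := by ring
      _ ≤ ∫ t : W, ‖fderiv ℝ (kr : W → ℝ) t‖ * (s⁻¹ * (2 * δ) * ‖v‖) := by
          refine setIntegral_le_integral hki (Eventually.of_forall fun t => ?_)
          show 0 ≤ ‖fderiv ℝ (kr : W → ℝ) t‖ * (s⁻¹ * (2 * δ) * ‖v‖)
          positivity
      _ = _ := by
          rw [integral_mul_const]
          unfold ck
          ring

/-- **the mollifications of close maps are joined by the linear path** -/
theorem iso_close {G : Set (W ≃ₗᵢ[ℝ] W)} {F F' : W → W} {m : ℝ} (hm : 0 < m) (hF : Lower F m)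
    (hF' : Lower F' m) (hG : ∀ R ∈ G, ∀ v, F (R v) = R (F v))
    (hG' : ∀ R ∈ G, ∀ v, F' (R v) = R (F' v)) {s : ℝ} (hs : 0 < s) (hs1 : s < 1) {κ c : ℝ}
    (hκ : ∀ v, ‖v‖ = 1 → Small F κ s v) (hκ' : ∀ v, ‖v‖ = 1 → Small F' κ s v)
    (hc : 2 * kb W * κ < c) (hcm : 4 * c < m) {δ : ℝ} (hδ : 0 ≤ δ)
    (h : ∀ v, ‖v‖ = 1 → ‖F v - F' v‖ ≤ δ)
    (hsm : 2 * δ + ck W * (s⁻¹ * (2 * δ)) ≤ m / 4) : Iso G (Gs s F) (Gs s F') := by
  have hFc : Continuous F := hom_continuous hF.smooth.continuousOn hF.hom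
  have hFc' : Continuous F' := hom_continuous hF'.smooth.continuousOn hF'.hom
  have hall : ∀ y, ‖F y - F' y‖ ≤ δ * ‖y‖ := by
    intro y
    by_cases hy : y = 0
    · have h0 := hF.hom 0 le_rfl 0
      have h0' := hF'.hom 0 le_rfl 0
      rw [zero_smul, zero_smul] at h0 h0'
      rw [hy, h0, h0', sub_zero, norm_zero, mul_zero]
    · have hyp : 0 < ‖y‖ := norm_pos_iff.2 hy
      have h1 := h (‖y‖⁻¹ • y) (by
        rw [norm_smul, norm_inv, norm_norm, inv_mul_cancel₀ hyp.ne'])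
      rw [hF.hom _ (inv_pos.2 hyp).le, hF'.hom _ (inv_pos.2 hyp).le, ← smul_sub, norm_smul,
        norm_inv, norm_norm, inv_mul_le_iff₀ hyp] at h1
      linarith
  have hHD := Gs_HD_small hF hG hs hs1 hκ hc (by linarith)
  have hHD' := Gs_HD_small hF' hG' hs hs1 hκ' hc (by linarith)
  refine Iso.straight (Gs_smooth hFc hs) (Gs_smooth hFc' hs) hHD hHD' ?_
  intro τ hτ0 hτ1 x hx
  have hd1 := Gs_der hF.smooth hs hs1 hx
  have hd2 := Gs_der hF'.smooth hs hs1 hx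
  have hxs : s < ‖x‖ := by rw [hx]; exact hs1
  obtain ⟨k1, k2⟩ := close_moll hFc hFc' hδ hall hs hs1.le hx
  rw [← av_as_fderiv hF.smooth hs hxs, ← av_as_fderiv hF'.smooth hs hxs] at k2
  set A := av s (fderiv ℝ F) x with hA
  set A' := av s (fderiv ℝ F') x with hA'
  have hlow : ∀ v, (m / 4) * ‖v‖ ≤
      ‖((1 - τ) • Dh (MS s F x) A x + τ • Dh (MS s F' x) A' x) v‖ := by
    intro v
    have h1 := Dh_lower hF hs hs1 hx (hκ x hx) hc v
    have h4 : |(inner ℝ x v : ℝ)| ≤ ‖v‖ := by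
      have := abs_real_inner_le_norm x v
      rwa [hx, one_mul] at this
    have e : ((1 - τ) • Dh (MS s F x) A x + τ • Dh (MS s F' x) A' x) v =
        Dh (MS s F x) A x v - τ • (Dh (MS s F x) A x v - Dh (MS s F' x) A' x v) := by
      show (1 - τ) • Dh (MS s F x) A x v + τ • Dh (MS s F' x) A' x v = _
      rw [smul_sub, sub_smul, one_smul]
      abel
    have h5 : ‖Dh (MS s F x) A x v - Dh (MS s F' x) A' x v‖ ≤ m / 4 * ‖v‖ := by
      rw [Dh_apply, Dh_apply]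
      set w := v - (inner ℝ x v : ℝ) • x with hw
      have hwn : ‖w‖ ≤ ‖v‖ := by
        have h6 : ‖w‖ ^ 2 ≤ ‖v‖ ^ 2 := by
          rw [hw, @norm_sub_sq_real, norm_smul, hx, real_inner_smul_right, real_inner_comm,
            Real.norm_eq_abs, mul_one, sq_abs]
          nlinarith [sq_nonneg (inner ℝ x v : ℝ)]
        exact (pow_le_pow_iff_left₀ (norm_nonneg _) (norm_nonneg _) two_ne_zero).1 h6
      have h7 : (inner ℝ x v : ℝ) • MS s F x + A w - ((inner ℝ x v : ℝ) • MS s F' x + A' w) =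
          (inner ℝ x v : ℝ) • (MS s F x - MS s F' x) + (A w - A' w) := by
        rw [smul_sub]; abel
      rw [h7]
      have h8 : ‖(inner ℝ x v : ℝ) • (MS s F x - MS s F' x)‖ ≤ ‖v‖ * (2 * δ) := by
        rw [norm_smul, Real.norm_eq_abs]
        exact mul_le_mul h4 k1 (norm_nonneg _) (norm_nonneg _)
      have h9 := k2 w
      have h10 : ck W * (s⁻¹ * (2 * δ)) * ‖w‖ ≤ ck W * (s⁻¹ * (2 * δ)) * ‖v‖ := by
        refine mul_le_mul_of_nonneg_left hwn ?_
        have := ck_nonneg (W := W)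
        positivity
      refine (norm_add_le _ _).trans ?_
      nlinarith [norm_nonneg v]
    rw [e]
    have h11 : ‖τ • (Dh (MS s F x) A x v - Dh (MS s F' x) A' x v)‖ ≤ m / 4 * ‖v‖ := by
      rw [norm_smul, Real.norm_of_nonneg hτ0]
      calc τ * ‖Dh (MS s F x) A x v - Dh (MS s F' x) A' x v‖
          ≤ 1 * (m / 4 * ‖v‖) := mul_le_mul hτ1 h5 (norm_nonneg _) zero_le_one
        _ = _ := one_mul _
    have h12 := norm_sub_norm_le (Dh (MS s F x) A x v)
      (τ • (Dh (MS s F x) A x v - Dh (MS s F' x) A' x v))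
    nlinarith [norm_nonneg v]
  obtain ⟨E, hE⟩ := equiv_of_lower (c := m / 4) (by linarith) hlow
  exact ⟨E, by rw [hE]; exact (hd1.const_smul (1 - τ)).add (hd2.const_smul τ)⟩

/-- the pigeonhole principle for maps of the sphere with a Lipschitz bound -/
lemma pigeon {M δ : ℝ} (hM : 0 ≤ M) (hδ : 0 < δ) : ∃ N : ℕ, ∀ F : Fin (N + 1) → W → W,
    (∀ i v, ‖v‖ = 1 → ‖F i v‖ ≤ M) →
    (∀ i v x, ‖v‖ = 1 → ‖x‖ = 1 → ‖v - x‖ < 1 → ‖F i v - F i x‖ ≤ M * ‖v - x‖) →
    ∃ i j, i ≠ j ∧ ∀ v, ‖v‖ = 1 → ‖F i v - F j v‖ ≤ δ := by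
  set ρ : ℝ := min 1 (δ / (4 * (M + 1))) with hρ
  have hρ0 : 0 < ρ := lt_min one_pos (by positivity)
  have hρM : M * ρ ≤ δ / 4 := by
    have h1 : ρ ≤ δ / (4 * (M + 1)) := min_le_right _ _
    calc M * ρ ≤ (M + 1) * (δ / (4 * (M + 1))) := by
          refine mul_le_mul (by linarith) h1 hρ0.le (by linarith)
      _ = δ / 4 := by field_simp
  obtain ⟨T, hTs, hTf, hT⟩ := (isCompact_sphere (0 : W) 1).finite_cover_balls hρ0
  obtain ⟨S, hSs, hSf, hS⟩ := (isCompact_closedBall (0 : W) M).finite_cover_balls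
    (show 0 < δ / 4 by positivity)
  have := hTf.fintype
  have := hSf.fintype
  classical
  refine ⟨Fintype.card (T → S), fun F h1 h2 => ?_⟩
  have hT1 : ∀ x : T, ‖(x : W)‖ = 1 := fun x => by
    have := hTs x.2
    rwa [mem_sphere_zero_iff_norm] at this
  have hcode : ∀ i, ∀ x : T, ∃ y : S, ‖F i x - y‖ < δ / 4 := by
    intro i x
    have h3 : F i x ∈ closedBall (0 : W) M := by
      rw [mem_closedBall_zero_iff]
      exact h1 i x (hT1 x)
    have h4 := hS h3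
    simp only [mem_iUnion, exists_prop] at h4
    obtain ⟨y, hy, hy2⟩ := h4
    exact ⟨⟨y, hy⟩, by rwa [mem_ball, dist_eq_norm] at hy2⟩
  choose c hc using hcode
  obtain ⟨i, j, hij, hcij⟩ := Fintype.exists_ne_map_eq_of_card_lt c (by simp)
  refine ⟨i, j, hij, fun v hv => ?_⟩
  have h5 : v ∈ sphere (0 : W) 1 := by rwa [mem_sphere_zero_iff_norm]
  have h6 := hT h5
  simp only [mem_iUnion, exists_prop] at h6
  obtain ⟨x, hx, hx2⟩ := h6
  rw [mem_ball, dist_eq_norm] at hx2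
  have hx1 := hT1 ⟨x, hx⟩
  have hvx : ‖v - x‖ < 1 := lt_of_lt_of_le hx2 (min_le_left _ _)
  have h7 := h2 i v x hv hx1 hvx
  have h8 := h2 j v x hv hx1 hvx
  have h9 := hc i ⟨x, hx⟩
  have h10 := hc j ⟨x, hx⟩
  rw [← hcij] at h10
  have h11 : M * ‖v - x‖ ≤ δ / 4 := (mul_le_mul_of_nonneg_left hx2.le hM).trans hρM
  have e : F i v - F j v = (F i v - F i x) - (F j v - F j x) + ((F i x - c i ⟨x, hx⟩) -
      (F j x - c i ⟨x, hx⟩)) := by abel
  rw [e]
  calc _ ≤ ‖(F i v - F i x) - (F j v - F j x)‖ + ‖(F i x - c i ⟨x, hx⟩) -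
      (F j x - c i ⟨x, hx⟩)‖ := norm_add_le _ _
    _ ≤ (δ / 4 + δ / 4) + (δ / 4 + δ / 4) := by
        refine add_le_add ((norm_sub_le _ _).trans (add_le_add (h7.trans h11) (h8.trans h11)))
          ((norm_sub_le _ _).trans (add_le_add h9.le h10.le))
    _ = δ := by ring

omit [FiniteDimensional ℝ W] [MeasurableSpace W] [BorelSpace W] in
/-- the Lipschitz bound near the unit sphere -/
lemma lip_sphere {F : W → W} (hFs : ContDiffOn ℝ ∞ F {0}ᶜ) {M : ℝ}
    (hM : ∀ v, v ≠ 0 → ‖fderiv ℝ F v‖ ≤ M) {v x : W} (hv : ‖v‖ = 1) (hvx : ‖v - x‖ < 1) :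
    ‖F v - F x‖ ≤ M * ‖v - x‖ := by
  have hne : ∀ y ∈ ball v (1:ℝ), y ≠ 0 := by
    intro y hy h0
    rw [h0, mem_ball, dist_eq_norm, zero_sub, norm_neg, hv] at hy
    exact lt_irrefl _ hy
  exact (convex_ball v 1).norm_image_sub_le_of_norm_hasFDerivWithin_le
    (f := F) (f' := fderiv ℝ F) (fun y hy => (hasF hFs (hne y hy)).hasFDerivWithinAt)
    (fun y hy => hM y (hne y hy))
    (by rw [mem_ball, dist_eq_norm, norm_sub_rev]; exact hvx) (mem_ball_self one_pos)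

end abstract

section complex

variable {n : ℕ}

lemma line_eq_imp {v w : V n} (hw : w ≠ 0) (h : line v = line w) :
    ∃ c : ℂ, c ≠ 0 ∧ w = c • v := by
  obtain ⟨j, hj⟩ : ∃ j, w j ≠ 0 := by
    by_contra h0
    push Not at h0
    exact hw (by ext i; exact h0 i)
  have h1 := col_line v j
  have h2 := col_line w j
  rw [h, h2] at h1
  have h3 : star (w j) / ((‖w‖ ^ 2 : ℝ) : ℂ) ≠ 0 :=
    div_ne_zero (star_ne_zero.2 hj) (normSq_ne hw)
  refine ⟨(star (w j) / ((‖w‖ ^ 2 : ℝ) : ℂ))⁻¹ * (star (v j) / ((‖v‖ ^ 2 : ℝ) : ℂ)), ?_, ?_⟩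
  · intro h0
    have h4 : w = ((star (w j) / ((‖w‖ ^ 2 : ℝ) : ℂ))⁻¹ * (star (v j) / ((‖v‖ ^ 2 : ℝ) : ℂ))) • v := by
      rw [mul_smul, ← h1, smul_smul, inv_mul_cancel₀ h3, one_smul]
    rw [h0, zero_smul] at h4
    exact hw h4
  · rw [mul_smul, ← h1, smul_smul, inv_mul_cancel₀ h3, one_smul]

/-- a lift of a bijection is a bijection -/
lemma lift_bij {φ ψ : Mat n → Mat n} (hψ : ∀ P ∈ CP n, ψ P ∈ CP n ∧ ψ (φ P) = P ∧ φ (ψ P) = P)
    {F : V n → V n} (hhom : ∀ (c : ℂ) v, F (c • v) = c • F v) (hne : ∀ v, v ≠ 0 → F v ≠ 0)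
    (hlift : ∀ v, v ≠ 0 → φ (line v) = line (F v)) : Bijective F := by
  have h0 : F 0 = 0 := by
    have := hhom 0 0
    rwa [zero_smul, zero_smul] at this
  constructor
  · intro v w hvw
    by_cases hv : v = 0
    · by_contra hne'
      have hw : w ≠ 0 := fun h => hne' (hv.trans h.symm)
      rw [hv, h0] at hvw
      exact hne w hw hvw.symm
    by_cases hw : w = 0
    · rw [hw, h0] at hvw
      exact absurd hvw (hne v hv)
    have h1 : line v = line w := by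
      rw [← (hψ _ (line_mem hv)).2.1, ← (hψ _ (line_mem hw)).2.1, hlift v hv, hlift w hw, hvw]
    obtain ⟨c, hc, rfl⟩ := line_eq_imp hw h1
    rw [hhom] at hvw
    have h2 : (c - 1) • F v = 0 := by rw [sub_smul, one_smul, ← hvw, sub_self]
    rcases smul_eq_zero.1 h2 with h3 | h3
    · rw [sub_eq_zero.1 h3, one_smul]
    · exact absurd h3 (hne v hv)
  · intro y
    by_cases hy : y = 0
    · exact ⟨0, by rw [h0, hy]⟩
    obtain ⟨v, hv, hPv⟩ := exists_line (hψ _ (line_mem hy)).1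
    have h1 : line (F v) = line y := by
      rw [← hlift v hv, ← hPv, (hψ _ (line_mem hy)).2.2]
    obtain ⟨c, hc, hcy⟩ := line_eq_imp hy h1
    exact ⟨c • v, by rw [hhom, hcy]⟩

/-- the composition of homogeneous local diffeomorphisms -/
lemma HD_comp {G : Set (V n ≃ₗᵢ[ℝ] V n)} {f g : V n → V n} (hf : HD G f) (hg : HD G g) :
    HD G (fun v => f (g v)) := by
  refine ⟨?_, ?_, ?_⟩
  · intro r hr v
    rw [hg.hom r hr, hf.hom r hr]
  · intro R hR v
    rw [hg.equi R hR, hf.equi R hR]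
  · intro v hv
    obtain ⟨A, hA⟩ := hg.der v hv
    obtain ⟨B, hB⟩ := hf.der (g v) (hg.ne_zero hv)
    exact ⟨A.trans B, hB.comp v hA⟩

/-- **isotopies of the projective space** from paths of lifts -/
theorem isotopy_of_iso {φ φ' ψ : Mat n → Mat n} (hφs : ContDiff ℝ ∞ φ)
    (hφ : ∀ P ∈ CP n, φ P ∈ CP n) (hφ's : ContDiff ℝ ∞ φ')
    (hφ' : ∀ P ∈ CP n, φ' P ∈ CP n ∧ φ' (φ P) = P ∧ φ (φ' P) = P)
    {F F' : V n → V n} (hFs : ContDiffOn ℝ ∞ F {0}ᶜ) (hlift : ∀ v, v ≠ 0 → φ (line v) = line (F v))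
    (hlift' : ∀ v, v ≠ 0 → ψ (line v) = line (F' v)) (hI : Iso (U1 n) F F') :
    ∃ K : ℝ × Mat n → Mat n, ContDiff ℝ ∞ K ∧ (∀ t : ℝ, ∀ P ∈ CP n, K (t, P) ∈ CP n) ∧
      (∀ P ∈ CP n, K (0, P) = φ P) ∧ (∀ P ∈ CP n, K (1, P) = ψ P) ∧
      ∀ t : ℝ, ∃ L : Mat n → Mat n, ContDiff ℝ ∞ L ∧
        ∀ P ∈ CP n, L P ∈ CP n ∧ L (K (t, P)) = P ∧ K (t, L P) = P := by
  have hFH : HD (U1 n) F := HD_of_iso hI.symm
  have hF'H : HD (U1 n) F' := HD_of_iso hI
  have hb : Bijective F := lift_bij hφ' (fun c v => hom_of_HD hFH c v) (fun v hv => hFH.ne_zero hv)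
    hlift
  obtain ⟨g, hgF, hFg, hgs, hgH⟩ := exists_inverse hFH hFs hb
  have hg0 : ∀ v, v ≠ 0 → g v ≠ 0 := fun v hv => hgH.ne_zero hv
  -- the path from the identity
  have hI2 : Iso (U1 n) (fun v => v) (fun v => F' (g v)) := by
    obtain ⟨Φ, hs, hH, h0, h1⟩ := hI
    refine ⟨fun t v => Φ t (g v), ?_, fun t => HD_comp (hH t) hgH, ?_, ?_⟩
    · have e : (uncurry fun t v => Φ t (g v)) = (uncurry Φ) ∘ fun p : ℝ × V n => (p.1, g p.2) := rfl
      rw [e]
      refine hs.comp (contDiff_fst.contDiffOn.prodMk (hgs.comp contDiff_snd.contDiffOn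
        fun p hp => hp.2)) ?_
      rintro ⟨t, v⟩ ⟨-, hv⟩
      exact ⟨mem_univ _, hg0 v hv⟩
    · intro t ht
      funext v
      show Φ t (g v) = v
      rw [h0 t ht]
      exact hFg v
    · intro t ht
      funext v
      show Φ t (g v) = F' (g v)
      rw [h1 t ht]
  have hl : ∀ v, v ≠ 0 → (fun P => ψ (φ' P)) (line v) = line (F' (g v)) := by
    intro v hv
    show ψ (φ' (line v)) = line (F' (g v))
    have h1 : φ' (line v) = line (g v) := by
      have h2 : line v = φ (line (g v)) := by rw [hlift _ (hg0 v hv), hFg]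
      rw [h2, (hφ' _ (line_mem (hg0 v hv))).2.1]
    rw [h1, hlift' _ (hg0 v hv)]
  obtain ⟨K, hK, hKm, hK0, hK1, hKi⟩ := proj_isotopy (φ := fun P => ψ (φ' P)) hl hI2
  refine ⟨fun p => K (p.1, φ p.2), hK.comp (contDiff_fst.prodMk (hφs.comp contDiff_snd)),
    fun t P hP => hKm t _ (hφ P hP), fun P hP => hK0 _ (hφ P hP), fun P hP => ?_, fun t => ?_⟩
  · show K (1, φ P) = ψ P
    rw [hK1 _ (hφ P hP)]
    show ψ (φ' (φ P)) = ψ P
    rw [(hφ' P hP).2.1]
  · obtain ⟨L, hL, hLi⟩ := hKi t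
    refine ⟨fun P => φ' (L P), hφ's.comp hL, fun P hP => ?_⟩
    obtain ⟨k1, k2, k3⟩ := hLi P hP
    refine ⟨(hφ' _ k1).1, ?_, ?_⟩
    · show φ' (L (K (t, φ P))) = P
      rw [(hLi _ (hφ P hP)).2.1, (hφ' P hP).2.1]
    · show K (t, φ (φ' (L P))) = P
      rw [(hφ' _ k1).2.2, k3]

end complex

end Pool.Agent.H13.Gap
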