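import Pool.Agent.H13.Gap.Poinc

/-!
# The conformally invariant energy of the second derivative controls the mean oscillation
-/

set_option autoImplicit false

open Set Filter Topology Metric Function MeasureTheory
open scoped ContDiff ENNReal

noncomputable section

namespace Pool.Agent.H13.Gap

open Pool.Agent.Q196.NP

section abstract

variable {W : Type*} [NormedAddCommGroup W] [InnerProductSpace ℝ W] [FiniteDimensional ℝ W]
  [MeasurableSpace W] [BorelSpace W]

omit [MeasurableSpace W] [BorelSpace W] in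
/-- a global function which agrees with the differential near a ball -/
lemma exists_global {F : W → W} (hFs : ContDiffOn ℝ ∞ F {0}ᶜ) {s : ℝ} (hs : 0 < s) {x : W}
    (hx : s < ‖x‖) : ∃ G : W → (W →L[ℝ] W), ContDiff ℝ 1 G ∧ ∀ t, ‖t‖ ≤ 1 →
      G t = fderiv ℝ F (x - s • t) ∧
      ‖fderiv ℝ G t‖ₑ ≤ ENNReal.ofReal s * ‖fderiv ℝ (fderiv ℝ F) (x - s • t)‖ₑ := by
  let b : ContDiffBump x := ⟨(2 * s + ‖x‖) / 3, (s + 2 * ‖x‖) / 3, by linarith, by linarith⟩
  set F1 : W → W := fun y => b y • F y with hF1
  have hb0 : ∀ y, (s + 2 * ‖x‖) / 3 ≤ ‖y - x‖ → b y = 0 := by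
    intro y hy
    apply b.zero_of_le_dist
    rw [dist_eq_norm]
    exact hy
  have hF1s : ContDiff ℝ ∞ F1 := by
    rw [contDiff_iff_contDiffAt]
    intro y
    by_cases hy : y = 0
    · have h1 : F1 =ᶠ[𝓝 y] fun _ => 0 := by
        have h2 : ∀ᶠ z in 𝓝 y, (s + 2 * ‖x‖) / 3 < ‖z - x‖ := by
          have h3 : ContinuousAt (fun z : W => ‖z - x‖) y := by fun_prop
          apply h3.eventually (lt_mem_nhds _)
          show (s + 2 * ‖x‖) / 3 < ‖y - x‖
          rw [hy, zero_sub, norm_neg]
          linarith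
        filter_upwards [h2] with z hz
        show b z • F z = 0
        rw [hb0 z hz.le, zero_smul]
      exact contDiffAt_const.congr_of_eventuallyEq h1
    · exact b.contDiffAt.smul (hFs.contDiffAt (isOpen_compl_singleton.mem_nhds hy))
  have hb1 : ∀ y, ‖y - x‖ ≤ (2 * s + ‖x‖) / 3 → b y = 1 := by
    intro y hy
    apply b.one_of_mem_closedBall
    rw [mem_closedBall, dist_eq_norm]
    exact hy
  have hnear : ∀ t : W, ‖t‖ ≤ 1 → F1 =ᶠ[𝓝 (x - s • t)] F := by
    intro t ht
    have h3 : ∀ᶠ z in 𝓝 (x - s • t), ‖z - x‖ < (2 * s + ‖x‖) / 3 := by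
      have h4 : ContinuousAt (fun z : W => ‖z - x‖) (x - s • t) := by fun_prop
      apply h4.eventually (gt_mem_nhds _)
      show ‖x - s • t - x‖ < (2 * s + ‖x‖) / 3
      have : x - s • t - x = -(s • t) := by abel
      rw [this, norm_neg, norm_smul, Real.norm_of_nonneg hs.le]
      nlinarith [norm_nonneg t]
    filter_upwards [h3] with z hz
    show b z • F z = F z
    rw [hb1 z hz.le, one_smul]
  have hd1 : ContDiff ℝ ∞ (fderiv ℝ F1) := hF1s.fderiv_right (by simp)
  refine ⟨fun t => fderiv ℝ F1 (x - s • t), ?_, fun t ht => ⟨(hnear t ht).fderiv_eq, ?_⟩⟩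
  · have h0 : ContDiff ℝ 1 fun t : W => x - s • t :=
      (contDiff_const (c := x)).sub (contDiff_id.const_smul s)
    exact (hd1.of_le (by simp)).comp h0
  · have h1 : HasFDerivAt (fun t : W => x - s • t) (-(s • ContinuousLinearMap.id ℝ W)) t := by
      have := ((hasFDerivAt_id (𝕜 := ℝ) t).const_smul s).const_sub x
      exact this
    have h2 : HasFDerivAt (fderiv ℝ F1) (fderiv ℝ (fderiv ℝ F1) (x - s • t)) (x - s • t) :=
      (hd1.differentiable (by simp) _).hasFDerivAt
    have h3 : fderiv ℝ (fun t => fderiv ℝ F1 (x - s • t)) t = _ := (h2.comp t h1).fderiv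
    rw [h3, (hnear t ht).fderiv.fderiv_eq]
    have h4 : ‖-(s • ContinuousLinearMap.id ℝ W)‖ ≤ s := by
      refine ContinuousLinearMap.opNorm_le_bound _ hs.le fun y => ?_
      show ‖-(s • y)‖ ≤ s * ‖y‖
      rw [norm_neg, norm_smul, Real.norm_of_nonneg hs.le]
    have h5 : ‖(fderiv ℝ (fderiv ℝ F) (x - s • t)).comp (-(s • ContinuousLinearMap.id ℝ W))‖ ≤
        s * ‖fderiv ℝ (fderiv ℝ F) (x - s • t)‖ := by
      refine (ContinuousLinearMap.opNorm_comp_le _ _).trans ?_
      rw [mul_comm]
      exact mul_le_mul_of_nonneg_right h4 (norm_nonneg _)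
    rw [← ofReal_norm, ← ofReal_norm, ← ENNReal.ofReal_mul hs.le]
    exact ENNReal.ofReal_le_ofReal h5

/-- mean oscillation and second derivative -/
theorem osc_le {F : W → W} (hFs : ContDiffOn ℝ ∞ F {0}ᶜ) {s : ℝ} (hs : 0 < s) {x : W}
    (hx : s < ‖x‖) : ∃ C : W →L[ℝ] W,
      ∫⁻ t in closedBall (0 : W) 1, ‖fderiv ℝ F (x - s • t) - C‖ₑ ≤
        2 ^ (Module.finrank ℝ W + 1) * ∫⁻ t in closedBall (0 : W) 1,
          ENNReal.ofReal s * ‖fderiv ℝ (fderiv ℝ F) (x - s • t)‖ₑ := by
  obtain ⟨G, hG, hG2⟩ := exists_global hFs hs hx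
  refine ⟨⨍ t' in closedBall (0 : W) 1, G t', ?_⟩
  have h1 := poincare hG
  have e1 : ∫⁻ t in closedBall (0 : W) 1, ‖fderiv ℝ F (x - s • t) -
      ⨍ t' in closedBall (0 : W) 1, G t'‖ₑ =
      ∫⁻ t in closedBall (0 : W) 1, ‖G t - ⨍ t' in closedBall (0 : W) 1, G t'‖ₑ := by
    refine setLIntegral_congr_fun measurableSet_closedBall fun t ht => ?_
    rw [mem_closedBall_zero_iff] at ht
    show ‖fderiv ℝ F (x - s • t) - _‖ₑ = ‖G t - _‖ₑ
    rw [(hG2 t ht).1]
  rw [e1]
  refine h1.trans (mul_le_mul' le_rfl ?_)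
  refine setLIntegral_mono' measurableSet_closedBall fun t ht => ?_
  rw [mem_closedBall_zero_iff] at ht
  exact (hG2 t ht).2

/-- the integral over a ball by the unit ball -/
lemma lint_ball {f : W → ℝ≥0∞} (hf : Measurable f) {s : ℝ} (hs : 0 < s) (x : W) :
    ∫⁻ t in closedBall (0 : W) 1, f (x - s • t) =
      ENNReal.ofReal ((s ^ Module.finrank ℝ W)⁻¹) * ∫⁻ y in closedBall x s, f y := by
  rw [← lintegral_indicator measurableSet_closedBall, ← lintegral_indicator measurableSet_closedBall]
  have h1 := lint_smul (f := fun y => (closedBall x s).indicator f (x - y))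
    ((hf.indicator measurableSet_closedBall).comp (by fun_prop)) hs
  have h2 : ∫⁻ y, (closedBall x s).indicator f (x - y) = ∫⁻ y, (closedBall x s).indicator f y :=
    lintegral_sub_left_eq_self _ x
  rw [← h2, ← h1]
  refine lintegral_congr fun t => ?_
  have h3 : x - s • t ∈ closedBall x s ↔ t ∈ closedBall (0 : W) 1 := by
    rw [mem_closedBall, mem_closedBall_zero_iff, dist_eq_norm]
    have : x - s • t - x = -(s • t) := by abel
    rw [this, norm_neg, norm_smul, Real.norm_of_nonneg hs.le]
    constructor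
    · intro h; nlinarith
    · intro h; nlinarith
  by_cases ht : t ∈ closedBall (0 : W) 1
  · rw [indicator_of_mem ht, indicator_of_mem (h3.2 ht)]
  · rw [indicator_of_notMem ht, indicator_of_notMem (fun h => ht (h3.1 h))]

end abstract

section complex

variable {n : ℕ}

/-- the annulus -/
def Ann (n : ℕ) : Set (V n) := {x | 1 ≤ ‖x‖ ∧ ‖x‖ ≤ 2}

/-- the part of the annulus near the complex line of `v` -/
def Tube {n : ℕ} (v : V n) (s : ℝ) : Set (V n) :=
  {x | 1 ≤ ‖x‖ ∧ ‖x‖ ≤ 2 ∧ ‖x - (inner ℂ v x : ℂ) • v‖ ≤ 2 * s}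

lemma tube_meas (v : V n) (s : ℝ) : MeasurableSet (Tube v s) := by
  have h1 : Continuous fun x : V n => ‖x - (inner ℂ v x : ℂ) • v‖ := by fun_prop
  exact (measurableSet_le measurable_const continuous_norm.measurable).inter
    ((measurableSet_le continuous_norm.measurable measurable_const).inter
      (measurableSet_le h1.measurable measurable_const))

lemma tube_sub (v : V n) (s : ℝ) : Tube v s ⊆ Ann n := fun _ hx => ⟨hx.1, hx.2.1⟩

/-- the annulus of complex numbers -/
def Dc : Set ℂ := {c | 5 / 8 ≤ ‖c‖ ∧ ‖c‖ ≤ 3 / 4}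

lemma Dc_meas : MeasurableSet Dc :=
  (measurableSet_le measurable_const continuous_norm.measurable).inter
    (measurableSet_le continuous_norm.measurable measurable_const)

lemma Dc_fin : volume Dc ≠ ⊤ := by
  refine (lt_of_le_of_lt (measure_mono ?_) (isCompact_closedBall (0:ℂ) 1).measure_lt_top).ne
  intro c hc
  rw [mem_closedBall_zero_iff]
  linarith [hc.2]

lemma Dc_pos : volume Dc ≠ 0 := by
  have h1 : ball ((11 / 16 : ℝ) : ℂ) (1 / 16) ⊆ Dc := by
    intro c hc
    rw [mem_ball, dist_eq_norm] at hc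
    have h2 : ‖((11 / 16 : ℝ) : ℂ)‖ = 11 / 16 := by
      rw [Complex.norm_real, Real.norm_of_nonneg (by norm_num)]
    have h3 := norm_sub_norm_le c ((11 / 16 : ℝ) : ℂ)
    have h4 := norm_sub_norm_le ((11 / 16 : ℝ) : ℂ) c
    rw [norm_sub_rev] at h4
    rw [h2] at h3 h4
    constructor <;> linarith
  intro h
  have h2 := measure_mono (μ := volume) h1
  rw [h] at h2
  have h3 := (measure_ball_pos (volume : Measure ℂ) ((11 / 16 : ℝ) : ℂ)
    (show (0:ℝ) < 1 / 16 by norm_num)).ne'
  exact h3 (le_antisymm h2 zero_le)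

/-- the change of variables given by multiplication with a complex number -/
lemma lint_complex {f : V n → ℝ≥0∞} (hf : Measurable f) {c : ℂ} (hc : c ≠ 0) :
    ∫⁻ w, f w = ENNReal.ofReal (‖c‖ ^ (2 * n + 2)) * ∫⁻ w, f (c • w) := by
  have hcn : 0 < ‖c‖ := norm_pos_iff.2 hc
  have hu : ‖c / (‖c‖ : ℂ)‖ = 1 := by
    rw [norm_div, Complex.norm_real, norm_norm, div_self hcn.ne']
  have hfr : Module.finrank ℝ (V n) = 2 * n + 2 := by
    rw [finrank_real_of_complex, finrank_euclideanSpace_fin]
    ring
  have h1 : ∀ w : V n, c • w = ‖c‖ • (rot n _ hu w) := by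
    intro w
    show c • w = ‖c‖ • ((c / (‖c‖ : ℂ)) • w)
    rw [← Complex.coe_smul, smul_smul]
    congr 1
    have : (‖c‖ : ℂ) ≠ 0 := by exact_mod_cast hcn.ne'
    field_simp
  have h2 := ((rot n _ hu).measurePreserving (E := V n) (F := V n)).lintegral_comp
    (f := fun w => f (‖c‖ • w)) (hf.comp (measurable_const_smul _))
  simp only [h1]
  rw [h2, lint_smul hf hcn, hfr, ← mul_assoc, ← ENNReal.ofReal_mul (by positivity),
    mul_inv_cancel₀ (by positivity), ENNReal.ofReal_one, one_mul]

/-- **averaging over the complex numbers** -/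
theorem group_average {g : V n → ℝ≥0∞} (hg : Measurable g)
    (hc : ∀ (c : ℂ) (w : V n), c ≠ 0 → w ≠ 0 → g (c • w) ≤ ENNReal.ofReal ((‖c‖ ^ (2 * n))⁻¹) * g w)
    {v : V n} (hv : ‖v‖ = 1) {s : ℝ} (hs : 0 < s) (hs1 : s ≤ 1 / 4) :
    ∫⁻ w in closedBall v s, g w ≤ ((volume Dc)⁻¹ * (4 * NNReal.pi)) *
      (ENNReal.ofReal (s ^ 2) * ∫⁻ w in Tube v s, g w) := by
  set B := closedBall v s with hB
  have hBm : MeasurableSet B := measurableSet_closedBall
  have hAm : MeasurableSet (Tube v s) := tube_meas v s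
  have hBn : ∀ w ∈ B, 3 / 4 ≤ ‖w‖ ∧ ‖w‖ ≤ 5 / 4 := by
    intro w hw
    rw [hB, mem_closedBall, dist_eq_norm] at hw
    have h1 := norm_sub_norm_le w v
    have h2 := norm_sub_norm_le v w
    rw [norm_sub_rev] at h2
    rw [hv] at h1 h2
    constructor <;> linarith
  -- for each `c`
  have hstep : ∀ c ∈ Dc, ∫⁻ w in B, g w ≤ ∫⁻ w, B.indicator (fun _ => (1:ℝ≥0∞)) (c • w) * g w := by
    intro c hcD
    have hcn : 0 < ‖c‖ := by linarith [hcD.1]
    have hc0 : c ≠ 0 := norm_pos_iff.1 hcn
    rw [← lintegral_indicator hBm, lint_complex (hg.indicator hBm) hc0]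
    rw [← lintegral_const_mul' _ _ ENNReal.ofReal_ne_top]
    refine lintegral_mono fun w => ?_
    by_cases hw : c • w ∈ B
    · show ENNReal.ofReal (‖c‖ ^ (2 * n + 2)) * B.indicator g (c • w) ≤
        B.indicator (fun _ => (1:ℝ≥0∞)) (c • w) * g w
      rw [indicator_of_mem hw, indicator_of_mem hw, one_mul]
      have hw0 : w ≠ 0 := by
        intro h
        have := (hBn _ hw).1
        rw [h, smul_zero, norm_zero] at this
        linarith
      calc ENNReal.ofReal (‖c‖ ^ (2 * n + 2)) * g (c • w)
          ≤ ENNReal.ofReal (‖c‖ ^ (2 * n + 2)) * (ENNReal.ofReal ((‖c‖ ^ (2 * n))⁻¹) * g w) :=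
            mul_le_mul' le_rfl (hc c w hc0 hw0)
        _ = ENNReal.ofReal (‖c‖ ^ 2) * g w := by
            rw [← mul_assoc, ← ENNReal.ofReal_mul (by positivity)]
            congr 2
            rw [pow_add, mul_comm (‖c‖ ^ (2 * n)), mul_assoc, mul_inv_cancel₀ (by positivity), mul_one]
        _ ≤ 1 * g w := by
            refine mul_le_mul' ?_ le_rfl
            rw [← ENNReal.ofReal_one]
            apply ENNReal.ofReal_le_ofReal
            have := hcD.2
            nlinarith
        _ = g w := one_mul _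
    · show ENNReal.ofReal (‖c‖ ^ (2 * n + 2)) * B.indicator g (c • w) ≤ _
      rw [indicator_of_notMem hw, mul_zero]
      exact zero_le
  -- integrate over `Dc`
  have hsm : Measurable fun q : ℂ × V n => q.1 • q.2 := by fun_prop
  have hind : Measurable (B.indicator (fun _ => (1:ℝ≥0∞))) := measurable_const.indicator hBm
  have h1 : volume Dc * ∫⁻ w in B, g w ≤
      ∫⁻ w in Tube v s, (ENNReal.ofReal ((2 * s) ^ 2) * NNReal.pi) * g w := by
    calc volume Dc * ∫⁻ w in B, g w = ∫⁻ c in Dc, ∫⁻ w in B, g w := by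
          rw [lintegral_const, Measure.restrict_apply_univ, mul_comm]
      _ ≤ ∫⁻ c in Dc, ∫⁻ w, B.indicator (fun _ => (1:ℝ≥0∞)) (c • w) * g w :=
          setLIntegral_mono' Dc_meas hstep
      _ = ∫⁻ w, ∫⁻ c in Dc, B.indicator (fun _ => (1:ℝ≥0∞)) (c • w) * g w := by
          rw [lintegral_lintegral_swap]
          apply Measurable.aemeasurable
          exact (hind.comp hsm).mul (hg.comp measurable_snd)
      _ ≤ ∫⁻ w, (Tube v s).indicator (fun w => (ENNReal.ofReal ((2 * s) ^ 2) * NNReal.pi) * g w) w := by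
          refine lintegral_mono fun w => ?_
          show ∫⁻ c in Dc, B.indicator (fun _ => (1:ℝ≥0∞)) (c • w) * g w ≤ _
          have hmw : Measurable fun c : ℂ => B.indicator (fun _ => (1:ℝ≥0∞)) (c • w) :=
            hind.comp (by fun_prop)
          rw [lintegral_mul_const _ hmw]
          by_cases hex : ∃ c₁ ∈ Dc, c₁ • w ∈ B
          · obtain ⟨c₁, hc₁, hw₁⟩ := hex
            have h2 := hBn _ hw₁
            rw [norm_smul] at h2
            have hw1 : 1 ≤ ‖w‖ := by
              have := hc₁.2
              by_contra h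
              push Not at h
              nlinarith [norm_nonneg w, norm_nonneg c₁]
            have hw2 : ‖w‖ ≤ 2 := by
              have := hc₁.1
              by_contra h
              push Not at h
              nlinarith [norm_nonneg w, norm_nonneg c₁]
            have hw3 : ‖w - (inner ℂ v w : ℂ) • v‖ ≤ 2 * s := by
              have hcn : 0 < ‖c₁‖ := by linarith [hc₁.1]
              have hc0 : c₁ ≠ 0 := norm_pos_iff.1 hcn
              have h3 : ‖w - c₁⁻¹ • v‖ ≤ 2 * s := by
                rw [hB, mem_closedBall, dist_eq_norm] at hw₁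
                have h4 : w - c₁⁻¹ • v = c₁⁻¹ • (c₁ • w - v) := by
                  rw [smul_sub, smul_smul, inv_mul_cancel₀ hc0, one_smul]
                rw [h4, norm_smul, norm_inv]
                have h5 : ‖c₁‖⁻¹ ≤ 2 := by
                  rw [inv_le_comm₀ hcn (by norm_num)]
                  linarith [hc₁.1]
                nlinarith [norm_nonneg (c₁ • w - v), inv_pos.2 hcn]
              refine le_trans ?_ h3
              have h6 : w - c₁⁻¹ • v = (w - (inner ℂ v w : ℂ) • v) + ((inner ℂ v w : ℂ) - c₁⁻¹) • v := by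
                rw [sub_smul]; abel
              have h7 : inner ℂ (w - (inner ℂ v w : ℂ) • v) (((inner ℂ v w : ℂ) - c₁⁻¹) • v) = (0:ℂ) := by
                rw [inner_smul_right, inner_sub_left, inner_smul_left, inner_conj_symm,
                  inner_self_eq_norm_sq_to_K, hv]
                simp
              rw [h6]
              have h8 := norm_add_sq_eq_norm_sq_add_norm_sq_of_inner_eq_zero _ _ h7
              nlinarith [norm_nonneg (w - (inner ℂ v w : ℂ) • v + ((inner ℂ v w : ℂ) - c₁⁻¹) • v),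
                norm_nonneg (w - (inner ℂ v w : ℂ) • v), norm_nonneg (((inner ℂ v w : ℂ) - c₁⁻¹) • v),
                sq_nonneg (‖w - (inner ℂ v w : ℂ) • v + ((inner ℂ v w : ℂ) - c₁⁻¹) • v‖ -
                  ‖w - (inner ℂ v w : ℂ) • v‖)]
            rw [indicator_of_mem (show w ∈ Tube v s from ⟨hw1, hw2, hw3⟩)]
            refine mul_le_mul' ?_ le_rfl
            calc ∫⁻ c in Dc, B.indicator (fun _ => (1:ℝ≥0∞)) (c • w)
                ≤ ∫⁻ c, (closedBall c₁ (2 * s)).indicator (fun _ => (1:ℝ≥0∞)) c := by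
                  refine (lintegral_mono' Measure.restrict_le_self le_rfl).trans
                    (lintegral_mono fun c => ?_)
                  show B.indicator (fun _ => (1:ℝ≥0∞)) (c • w) ≤ _
                  by_cases hcw : c • w ∈ B
                  · rw [indicator_of_mem (show c ∈ closedBall c₁ (2 * s) from ?_)]
                    · exact indicator_le_self' (fun _ _ => zero_le) _
                    · rw [mem_closedBall, dist_eq_norm]
                      rw [hB, mem_closedBall, dist_eq_norm] at hcw hw₁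
                      have h3 : ‖(c - c₁) • w‖ ≤ 2 * s := by
                        have : (c - c₁) • w = (c • w - v) - (c₁ • w - v) := by
                          rw [sub_smul]; abel
                        rw [this]
                        exact (norm_sub_le _ _).trans (by linarith)
                      rw [norm_smul] at h3
                      nlinarith [norm_nonneg (c - c₁)]
                  · rw [indicator_of_notMem hcw]
                    exact zero_le
              _ = ENNReal.ofReal ((2 * s) ^ 2) * NNReal.pi := by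
                  rw [lintegral_indicator_const measurableSet_closedBall, one_mul,
                    Complex.volume_closedBall, ENNReal.ofReal_pow (by linarith)]
          · push Not at hex
            have h0 : ∫⁻ c in Dc, B.indicator (fun _ => (1:ℝ≥0∞)) (c • w) = 0 := by
              rw [setLIntegral_congr_fun (g := fun _ => 0) Dc_meas fun c hcD => ?_]
              · simp
              · exact indicator_of_notMem (hex c hcD) _
            rw [h0, zero_mul]
            exact zero_le
      _ = _ := lintegral_indicator hAm _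
  rw [lintegral_const_mul' _ _ (ENNReal.mul_ne_top ENNReal.ofReal_ne_top ENNReal.coe_ne_top)] at h1
  have h2 : ∫⁻ w in B, g w = (volume Dc)⁻¹ * (volume Dc * ∫⁻ w in B, g w) := by
    rw [← mul_assoc, ENNReal.inv_mul_cancel Dc_pos Dc_fin, one_mul]
  rw [h2]
  refine (mul_le_mul' le_rfl h1).trans (le_of_eq ?_)
  have e : ENNReal.ofReal ((2 * s) ^ 2) = 4 * ENNReal.ofReal (s ^ 2) := by
    rw [mul_pow, ENNReal.ofReal_mul (by norm_num)]
    norm_num
  rw [e]
  ring

end complex

end Pool.Agent.H13.Gap
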