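import Pool.Agent.H13.Gap.Energy

/-!
# The two criteria
-/

set_option autoImplicit false

open Set Filter Topology Metric Function MeasureTheory
open scoped ContDiff ENNReal

noncomputable section

namespace Pool.Agent.H13.Gap

open Pool.Agent.Q196.NP

section abstract

variable {W : Type*} [NormedAddCommGroup W] [InnerProductSpace ℝ W] [FiniteDimensional ℝ W]
  [MeasurableSpace W] [BorelSpace W]

/-- the volume of the unit ball -/
def vb (W : Type*) [NormedAddCommGroup W] [MeasureSpace W] : ℝ :=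
  volume.real (closedBall (0 : W) 1)

lemma vb_pos : 0 < vb W := by
  unfold vb Measure.real
  exact ENNReal.toReal_pos (measure_closedBall_pos volume (0:W) one_pos).ne'
    (isCompact_closedBall (0:W) 1).measure_lt_top.ne

lemma int_ball_eq {f : W → ℝ} {s : ℝ} (hs : 0 < s) (x : W) :
    ∫ t in closedBall (0 : W) 1, f (x - s • t) =
      (s ^ Module.finrank ℝ W)⁻¹ * ∫ y in closedBall x s, f y := by
  rw [← integral_indicator measurableSet_closedBall, ← integral_indicator measurableSet_closedBall]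
  have h1 := Measure.integral_comp_smul (volume : Measure W)
    (fun y => (closedBall x s).indicator f (x - y)) s
  have h2 : ∫ y, (closedBall x s).indicator f (x - y) = ∫ y, (closedBall x s).indicator f y :=
    integral_sub_left_eq_self _ volume x
  rw [abs_of_pos (by positivity), h2, smul_eq_mul] at h1
  rw [← h1]
  refine integral_congr_ae (Eventually.of_forall fun t => ?_)
  have h3 : x - s • t ∈ closedBall x s ↔ t ∈ closedBall (0 : W) 1 := by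
    rw [mem_closedBall, mem_closedBall_zero_iff, dist_eq_norm]
    have : x - s • t - x = -(s • t) := by abel
    rw [this, norm_neg, norm_smul, Real.norm_of_nonneg hs.le]
    constructor
    · intro h; nlinarith
    · intro h; nlinarith
  show (closedBall (0 : W) 1).indicator (fun t => f (x - s • t)) t =
    (closedBall x s).indicator f (x - s • t)
  by_cases ht : t ∈ closedBall (0 : W) 1
  · rw [indicator_of_mem ht, indicator_of_mem (h3.2 ht)]
  · rw [indicator_of_notMem ht, indicator_of_notMem (fun h => ht (h3.1 h))]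

lemma small_of_avg {F : W → W} {s : ℝ} (hs : 0 < s) {x : W} {C : W →L[ℝ] W} {δ : ℝ}
    (h : ⨍ y in closedBall x s, ‖fderiv ℝ F y - C‖ ≤ δ) : Small F (vb W * δ) s x := by
  refine ⟨C, ?_⟩
  have h1 := int_ball_eq (f := fun y => ‖fderiv ℝ F y - C‖) hs x
  have h2 := int_ball_eq (f := fun _ => (1:ℝ)) hs x
  rw [setIntegral_const, setIntegral_const, smul_eq_mul, smul_eq_mul, mul_one, mul_one] at h2
  rw [setAverage_eq, smul_eq_mul] at h
  rw [h1]
  have h3 : 0 < vb W := vb_pos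
  have h4 : vb W = (s ^ Module.finrank ℝ W)⁻¹ * volume.real (closedBall x s) := h2
  have h5 : volume.real (closedBall x s) ≠ 0 := by
    intro h0
    rw [h0, mul_zero] at h4
    exact h3.ne' h4
  have h6 : (s ^ Module.finrank ℝ W)⁻¹ * ∫ y in closedBall x s, ‖fderiv ℝ F y - C‖ =
      vb W * ((volume.real (closedBall x s))⁻¹ * ∫ y in closedBall x s, ‖fderiv ℝ F y - C‖) := by
    rw [h4]
    field_simp
  rw [h6]
  exact mul_le_mul_of_nonneg_left h h3.le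

/-- from the lower integral -/
lemma small_of_lint {F : W → W} (hFs : ContDiffOn ℝ ∞ F {0}ᶜ) {s : ℝ} (hs : 0 < s) {x : W}
    (hx : s < ‖x‖) {C : W →L[ℝ] W} {κ : ℝ} (hκ : 0 ≤ κ)
    (h : ∫⁻ t in closedBall (0 : W) 1, ‖fderiv ℝ F (x - s • t) - C‖ₑ ≤ ENNReal.ofReal κ) :
    Small F κ s x := by
  refine ⟨C, ?_⟩
  have hi := int_fderiv hFs hs hx
  have hc : IntegrableOn (fun _ : W => C) (closedBall (0 : W) 1) :=
    (continuousOn_const).integrableOn_compact (isCompact_closedBall (0:W) 1)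
  have hsub : IntegrableOn (fun t => fderiv ℝ F (x - s • t) - C) (closedBall (0 : W) 1) := hi.sub hc
  rw [integral_norm_eq_lintegral_enorm hsub.aestronglyMeasurable]
  exact ENNReal.toReal_le_of_le_ofReal hκ h

end abstract

section complex

variable {n : ℕ}

/-- multiplication by `c` -/
def mc (c : ℂ) : V n →L[ℝ] V n := (c • ContinuousLinearMap.id ℂ (V n)).restrictScalars ℝ

lemma mc_apply (c : ℂ) (v : V n) : mc c v = c • v := rfl

lemma mc_norm (c : ℂ) : ‖(mc c : V n →L[ℝ] V n)‖ ≤ ‖c‖ := by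
  refine ContinuousLinearMap.opNorm_le_bound _ (norm_nonneg _) fun v => ?_
  rw [mc_apply, norm_smul]

/-- the second derivative is homogeneous of degree `-1` -/
lemma second_hom {F : V n → V n} (hFs : ContDiffOn ℝ ∞ F {0}ᶜ)
    (hhom : ∀ (c : ℂ) v, F (c • v) = c • F v) {c : ℂ} (hc : c ≠ 0) {w : V n} (hw : w ≠ 0) :
    ‖fderiv ℝ (fderiv ℝ F) (c • w)‖ ≤ ‖c‖⁻¹ * ‖fderiv ℝ (fderiv ℝ F) w‖ := by
  have hcw : c • w ≠ 0 := smul_ne_zero hc hw
  have hfd : ∀ y : V n, y ≠ 0 → fderiv ℝ F y = ((mc c).comp (fderiv ℝ F (c⁻¹ • y))).comp (mc c⁻¹) := by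
    intro y hy
    have hy' : c⁻¹ • y ≠ 0 := smul_ne_zero (inv_ne_zero hc) hy
    have h1 : HasFDerivAt F (fderiv ℝ F (c⁻¹ • y)) (mc c⁻¹ y) := hasF hFs hy'
    have h2 : HasFDerivAt (fun z => F (mc c⁻¹ z)) ((fderiv ℝ F (c⁻¹ • y)).comp (mc c⁻¹)) y :=
      h1.comp y (mc c⁻¹).hasFDerivAt
    have h3 : HasFDerivAt (fun z => mc c (F (mc c⁻¹ z)))
        ((mc c).comp ((fderiv ℝ F (c⁻¹ • y)).comp (mc c⁻¹))) y :=
      (mc c).hasFDerivAt.comp y h2
    have h4 : (fun z => mc c (F (mc c⁻¹ z))) = F := by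
      funext z
      rw [mc_apply, mc_apply, hhom, smul_smul, mul_inv_cancel₀ hc, one_smul]
    rw [h4] at h3
    rw [h3.fderiv]
    rfl
  have hd1 : ContDiffOn ℝ ∞ (fderiv ℝ F) {0}ᶜ :=
    hFs.fderiv_of_isOpen isOpen_compl_singleton (by simp)
  have hd2 : ∀ y : V n, y ≠ 0 → HasFDerivAt (fderiv ℝ F) (fderiv ℝ (fderiv ℝ F) y) y := fun y hy =>
    ((hd1.contDiffAt (isOpen_compl_singleton.mem_nhds hy)).differentiableAt (by simp)).hasFDerivAt
  let Ψ : (V n →L[ℝ] V n) →L[ℝ] (V n →L[ℝ] V n) :=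
    ((ContinuousLinearMap.compL ℝ (V n) (V n) (V n)).flip (mc c⁻¹)).comp
      (ContinuousLinearMap.compL ℝ (V n) (V n) (V n) (mc c))
  have hΨ : ∀ T, Ψ T = ((mc c).comp T).comp (mc c⁻¹) := fun T => rfl
  have h5 : HasFDerivAt (fun z => Ψ (fderiv ℝ F (mc c⁻¹ z)))
      (Ψ.comp ((fderiv ℝ (fderiv ℝ F) w).comp (mc c⁻¹))) (c • w) := by
    have h6 : HasFDerivAt (fderiv ℝ F) (fderiv ℝ (fderiv ℝ F) w) (mc c⁻¹ (c • w)) := by
      rw [mc_apply, smul_smul, inv_mul_cancel₀ hc, one_smul]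
      exact hd2 w hw
    exact Ψ.hasFDerivAt.comp (c • w) (h6.comp (c • w) (mc c⁻¹).hasFDerivAt)
  have h7 : fderiv ℝ F =ᶠ[𝓝 (c • w)] fun z => Ψ (fderiv ℝ F (mc c⁻¹ z)) := by
    filter_upwards [isOpen_compl_singleton.mem_nhds hcw] with z hz
    rw [hΨ]
    exact hfd z hz
  have h8 : fderiv ℝ (fderiv ℝ F) (c • w) = Ψ.comp ((fderiv ℝ (fderiv ℝ F) w).comp (mc c⁻¹)) :=
    (h5.congr_of_eventuallyEq h7).fderiv
  rw [h8]
  refine ContinuousLinearMap.opNorm_le_bound _ (by positivity) fun k => ?_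
  show ‖Ψ (fderiv ℝ (fderiv ℝ F) w (mc c⁻¹ k))‖ ≤ _
  rw [hΨ]
  have hci : ‖(mc c⁻¹ : V n →L[ℝ] V n)‖ ≤ ‖c‖⁻¹ := (mc_norm _).trans (by rw [norm_inv])
  have hcp : 0 < ‖c‖ := norm_pos_iff.2 hc
  calc ‖((mc c).comp (fderiv ℝ (fderiv ℝ F) w (mc c⁻¹ k))).comp (mc c⁻¹)‖
      ≤ ‖(mc c : V n →L[ℝ] V n)‖ * ‖fderiv ℝ (fderiv ℝ F) w (mc c⁻¹ k)‖ *
          ‖(mc c⁻¹ : V n →L[ℝ] V n)‖ :=
        (ContinuousLinearMap.opNorm_comp_le _ _).trans
          (mul_le_mul_of_nonneg_right (ContinuousLinearMap.opNorm_comp_le _ _) (norm_nonneg _))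
    _ ≤ ‖c‖ * (‖fderiv ℝ (fderiv ℝ F) w‖ * (‖c‖⁻¹ * ‖k‖)) * ‖c‖⁻¹ := by
        refine mul_le_mul (mul_le_mul (mc_norm c) ?_ (norm_nonneg _) (norm_nonneg _)) hci
          (norm_nonneg _) (by positivity)
        refine (ContinuousLinearMap.le_opNorm _ _).trans
          (mul_le_mul_of_nonneg_left ?_ (norm_nonneg _))
        rw [mc_apply, norm_smul, norm_inv]
    _ = ‖c‖⁻¹ * ‖fderiv ℝ (fderiv ℝ F) w‖ * ‖k‖ := by
        field_simp

lemma nn2 (T : V n →L[ℝ] V n →L[ℝ] V n) : 0 ≤ ‖T‖ :=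
  @norm_nonneg (V n →L[ℝ] V n →L[ℝ] V n) _ T

lemma en2 (T : V n →L[ℝ] V n →L[ℝ] V n) : ‖T‖ₑ = ENNReal.ofReal ‖T‖ :=
  (@ofReal_norm (V n →L[ℝ] V n →L[ℝ] V n) _ T).symm

/-- the constant of the energy estimate -/
def ce (n : ℕ) : ℝ≥0∞ := 2 ^ (Module.finrank ℝ (V n) + 1) *
  (((volume Dc)⁻¹ * (4 * NNReal.pi)) ^ (1 / ((2 * n : ℕ) : ℝ)) *
    volume (closedBall (0 : V n) 1) ^ (1 - 1 / ((2 * n : ℕ) : ℝ)))

lemma ce_ne_top (hn : 1 ≤ n) : ce n ≠ ⊤ := by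
  have hq : (1:ℝ) ≤ ((2 * n : ℕ) : ℝ) := by exact_mod_cast (by omega : 1 ≤ 2 * n)
  unfold ce
  refine ENNReal.mul_ne_top (by simp) (ENNReal.mul_ne_top ?_ ?_)
  · refine ENNReal.rpow_ne_top_of_nonneg (by positivity) ?_
    exact ENNReal.mul_ne_top (ENNReal.inv_ne_top.2 Dc_pos)
      (ENNReal.mul_ne_top (by norm_num) ENNReal.coe_ne_top)
  · refine ENNReal.rpow_ne_top_of_nonneg ?_ (isCompact_closedBall (0:V n) 1).measure_lt_top.ne
    rw [sub_nonneg, div_le_one (by linarith)]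
    exact hq

lemma ann_compact : IsCompact (Ann n) := by
  have : Ann n = closedBall (0 : V n) 2 ∩ {x | 1 ≤ ‖x‖} := by
    ext x
    simp only [Ann, mem_ofPred_eq, mem_inter_iff, mem_closedBall_zero_iff]
    exact and_comm
  rw [this]
  exact (isCompact_closedBall _ _).inter_right (isClosed_le continuous_const continuous_norm)

lemma energy_int {F : V n → V n} (hFs : ContDiffOn ℝ ∞ F {0}ᶜ) :
    IntegrableOn (fun x => ‖fderiv ℝ (fderiv ℝ F) x‖ ^ (2 * n)) (Ann n) := by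
  have hd1 : ContDiffOn ℝ ∞ (fderiv ℝ F) {0}ᶜ :=
    hFs.fderiv_of_isOpen isOpen_compl_singleton (by simp)
  have hd2 : ContinuousOn (fderiv ℝ (fderiv ℝ F)) {0}ᶜ :=
    hd1.continuousOn_fderiv_of_isOpen isOpen_compl_singleton (by simp)
  have hsub : Ann n ⊆ {0}ᶜ := by
    intro x hx h0
    have h1 := hx.1
    rw [mem_singleton_iff.1 h0, norm_zero] at h1
    linarith
  have h9 : ContinuousOn (fun x => ‖fderiv ℝ (fderiv ℝ F) x‖) (Ann n) :=
    (@continuous_norm (V n →L[ℝ] V n →L[ℝ] V n) _).comp_continuousOn (hd2.mono hsub)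
  have h10 : ContinuousOn (fun x => ‖fderiv ℝ (fderiv ℝ F) x‖ ^ (2 * n)) (Ann n) :=
    fun x hx => (h9 x hx).pow (2 * n)
  exact h10.integrableOn_compact ann_compact

/-- the lower integral of the energy -/
lemma energy_lint {F : V n → V n} (hFs : ContDiffOn ℝ ∞ F {0}ᶜ) {S : Set (V n)} (hS : S ⊆ Ann n)
    {E : ℝ} (hE : ∫ x in S, ‖fderiv ℝ (fderiv ℝ F) x‖ ^ (2 * n) ≤ E) :
    ∫⁻ w in S, ‖fderiv ℝ (fderiv ℝ F) w‖ₑ ^ (2 * n) ≤ ENNReal.ofReal E := by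
  have h1 : ∫⁻ w in S, ‖fderiv ℝ (fderiv ℝ F) w‖ₑ ^ (2 * n) =
      ∫⁻ w in S, ENNReal.ofReal (‖fderiv ℝ (fderiv ℝ F) w‖ ^ (2 * n)) := by
    refine lintegral_congr fun w => ?_
    rw [ENNReal.ofReal_pow (nn2 _), en2]
  rw [h1, ← ofReal_integral_eq_lintegral_ofReal ((energy_int hFs).mono_set hS)
    (Eventually.of_forall fun x => pow_nonneg (nn2 _) _)]
  exact ENNReal.ofReal_le_ofReal hE

/-- **the energy controls the mean oscillation** -/
theorem osc_energy (hn : 1 ≤ n) {F : V n → V n} (hFs : ContDiffOn ℝ ∞ F {0}ᶜ)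
    (hhom : ∀ (c : ℂ) v, F (c • v) = c • F v) {v : V n} (hv : ‖v‖ = 1) {s : ℝ} (hs : 0 < s)
    (hs1 : s ≤ 1 / 4) {δ : ℝ} (hδ : 0 ≤ δ)
    (hE2 : ∫⁻ w in Tube v s, ‖fderiv ℝ (fderiv ℝ F) w‖ₑ ^ (2 * n) ≤ ENNReal.ofReal (δ ^ (2 * n))) :
    ∃ C : V n →L[ℝ] V n,
      ∫⁻ t in closedBall (0 : V n) 1, ‖fderiv ℝ F (v - s • t) - C‖ₑ ≤ ce n * ENNReal.ofReal δ := by
  have hx : s < ‖v‖ := by rw [hv]; linarith
  obtain ⟨C, hC⟩ := osc_le hFs hs hx
  refine ⟨C, hC.trans ?_⟩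
  set B := closedBall (0 : V n) 1 with hB
  have hfr : Module.finrank ℝ (V n) = 2 * n + 2 := by
    rw [finrank_real_of_complex, finrank_euclideanSpace_fin]
    ring
  have hq : (1:ℝ) ≤ ((2 * n : ℕ) : ℝ) := by exact_mod_cast (by omega : 1 ≤ 2 * n)
  have hq0 : ((2 * n : ℕ) : ℝ) ≠ 0 := by linarith
  have hm : Measurable fun x : V n => ‖fderiv ℝ (fderiv ℝ F) x‖ₑ :=
    (measurable_fderiv ℝ (fderiv ℝ F)).enorm
  -- the ball
  have hG : ∫⁻ w in closedBall v s, ‖fderiv ℝ (fderiv ℝ F) w‖ₑ ^ (2 * n) ≤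
      ((volume Dc)⁻¹ * (4 * NNReal.pi)) * (ENNReal.ofReal (s ^ 2) * ENNReal.ofReal (δ ^ (2 * n))) := by
    refine (group_average (g := fun w => ‖fderiv ℝ (fderiv ℝ F) w‖ₑ ^ (2 * n)) (hm.pow_const _)
      ?_ hv hs hs1).trans (mul_le_mul' le_rfl (mul_le_mul' le_rfl hE2))
    intro c w hc hw
    have h1 := second_hom hFs hhom hc hw
    show ‖fderiv ℝ (fderiv ℝ F) (c • w)‖ₑ ^ (2 * n) ≤
      ENNReal.ofReal ((‖c‖ ^ (2 * n))⁻¹) * ‖fderiv ℝ (fderiv ℝ F) w‖ₑ ^ (2 * n)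
    rw [← inv_pow, ENNReal.ofReal_pow (by positivity), ← mul_pow, en2, en2,
      ← ENNReal.ofReal_mul (by positivity)]
    exact pow_le_pow_left' (ENNReal.ofReal_le_ofReal h1) _
  -- the power on the unit ball
  have hP : ∫⁻ t in B, (ENNReal.ofReal s * ‖fderiv ℝ (fderiv ℝ F) (v - s • t)‖ₑ) ^ (2 * n) ≤
      ((volume Dc)⁻¹ * (4 * NNReal.pi)) * ENNReal.ofReal (δ ^ (2 * n)) := by
    have h1 : ∫⁻ t in B, (ENNReal.ofReal s * ‖fderiv ℝ (fderiv ℝ F) (v - s • t)‖ₑ) ^ (2 * n) =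
        ENNReal.ofReal s ^ (2 * n) * ∫⁻ t in B, ‖fderiv ℝ (fderiv ℝ F) (v - s • t)‖ₑ ^ (2 * n) := by
      rw [← lintegral_const_mul' _ _ (by simp)]
      refine lintegral_congr fun t => ?_
      rw [mul_pow]
    rw [h1, lint_ball (f := fun w => ‖fderiv ℝ (fderiv ℝ F) w‖ₑ ^ (2 * n)) (hm.pow_const _) hs v,
      hfr]
    calc ENNReal.ofReal s ^ (2 * n) * (ENNReal.ofReal ((s ^ (2 * n + 2))⁻¹) *
          ∫⁻ y in closedBall v s, ‖fderiv ℝ (fderiv ℝ F) y‖ₑ ^ (2 * n))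
        ≤ ENNReal.ofReal s ^ (2 * n) * (ENNReal.ofReal ((s ^ (2 * n + 2))⁻¹) *
          (((volume Dc)⁻¹ * (4 * NNReal.pi)) *
            (ENNReal.ofReal (s ^ 2) * ENNReal.ofReal (δ ^ (2 * n))))) :=
          mul_le_mul' le_rfl (mul_le_mul' le_rfl hG)
      _ = (ENNReal.ofReal s ^ (2 * n) * ENNReal.ofReal ((s ^ (2 * n + 2))⁻¹) *
            ENNReal.ofReal (s ^ 2)) * (((volume Dc)⁻¹ * (4 * NNReal.pi)) *
            ENNReal.ofReal (δ ^ (2 * n))) := by ring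
      _ = _ := by
          rw [← ENNReal.ofReal_pow hs.le, ← ENNReal.ofReal_mul (by positivity),
            ← ENNReal.ofReal_mul (by positivity)]
          have : s ^ (2 * n) * (s ^ (2 * n + 2))⁻¹ * s ^ 2 = 1 := by
            rw [pow_add]
            field_simp
          rw [this, ENNReal.ofReal_one, one_mul]
  -- Hölder
  set f : V n → ℝ := fun t => s * ‖fderiv ℝ (fderiv ℝ F) (v - s • t)‖ with hf
  have hfm : Measurable f :=
    (((measurable_fderiv ℝ (fderiv ℝ F)).comp (by fun_prop : Measurable fun t : V n =>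
      v - s • t)).norm).const_mul s
  have hfe : ∀ t, ‖f t‖ₑ = ENNReal.ofReal s * ‖fderiv ℝ (fderiv ℝ F) (v - s • t)‖ₑ := by
    intro t
    rw [en2, ← ofReal_norm, ← ENNReal.ofReal_mul hs.le, Real.norm_of_nonneg
      (mul_nonneg hs.le (nn2 _))]
  have hH := eLpNorm_le_eLpNorm_mul_rpow_measure_univ (μ := volume.restrict B) (f := f)
    (p := 1) (q := ((2 * n : ℕ) : ℝ≥0∞)) (by exact_mod_cast (by omega : 1 ≤ 2 * n))
    hfm.aestronglyMeasurable
  rw [eLpNorm_one_eq_lintegral_enorm, eLpNorm_eq_lintegral_rpow_enorm_toReal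
    (by exact_mod_cast (by omega : 2 * n ≠ 0)) (ENNReal.natCast_ne_top _),
    Measure.restrict_apply_univ] at hH
  simp only [hfe, ENNReal.toReal_natCast, ENNReal.toReal_one, div_one, ENNReal.rpow_natCast] at hH
  have h2 : (∫⁻ t in B, (ENNReal.ofReal s * ‖fderiv ℝ (fderiv ℝ F) (v - s • t)‖ₑ) ^ (2 * n)) ^
      (1 / ((2 * n : ℕ) : ℝ)) ≤
      ((volume Dc)⁻¹ * (4 * NNReal.pi)) ^ (1 / ((2 * n : ℕ) : ℝ)) * ENNReal.ofReal δ := by
    refine (ENNReal.rpow_le_rpow hP (by positivity)).trans (le_of_eq ?_)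
    rw [ENNReal.mul_rpow_of_nonneg _ _ (by positivity), ENNReal.ofReal_pow hδ,
      ← ENNReal.rpow_natCast, ← ENNReal.rpow_mul, mul_one_div_cancel hq0, ENNReal.rpow_one]
  calc 2 ^ (Module.finrank ℝ (V n) + 1) * ∫⁻ t in B,
        ENNReal.ofReal s * ‖fderiv ℝ (fderiv ℝ F) (v - s • t)‖ₑ
      ≤ 2 ^ (Module.finrank ℝ (V n) + 1) *
        ((((volume Dc)⁻¹ * (4 * NNReal.pi)) ^ (1 / ((2 * n : ℕ) : ℝ)) * ENNReal.ofReal δ) *
          volume B ^ (1 - 1 / ((2 * n : ℕ) : ℝ))) :=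
        mul_le_mul' le_rfl (hH.trans (mul_le_mul' h2 le_rfl))
    _ = ce n * ENNReal.ofReal δ := by
        unfold ce
        ring

end complex

end Pool.Agent.H13.Gap
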