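import Pool.Agent.H13.Gap.Osc

/-!
# Homogeneous maps whose differential has small mean oscillation
-/

set_option autoImplicit false

open Set Filter Topology Metric Function MeasureTheory
open scoped ContDiff Convolution

noncomputable section

namespace Pool.Agent.H13.Gap

open Pool.Agent.Q196.NP

variable {W : Type*} [NormedAddCommGroup W] [InnerProductSpace ℝ W] [FiniteDimensional ℝ W]
  [MeasurableSpace W] [BorelSpace W]

omit [MeasurableSpace W] [BorelSpace W] in
lemma equiv_of_lower {D : W →L[ℝ] W} {c : ℝ} (hc : 0 < c) (h : ∀ v, c * ‖v‖ ≤ ‖D v‖) :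
    ∃ A : W ≃L[ℝ] W, (A : W →L[ℝ] W) = D := by
  have hinj : Injective D := by
    rw [injective_iff_map_eq_zero]
    intro v hv
    have h1 := h v
    rw [hv, norm_zero] at h1
    have h2 : ‖v‖ ≤ 0 := by
      by_contra h3
      push Not at h3
      nlinarith
    exact norm_le_zero_iff.1 h2
  have hsurj : Surjective D := LinearMap.injective_iff_surjective.1 hinj
  exact ⟨ContinuousLinearEquiv.ofBijective D (LinearMap.ker_eq_bot.2 hinj)
    (LinearMap.range_eq_top.2 hsurj), by ext x; rfl⟩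

/-- the data: a smooth homogeneous map whose differential stretches all vectors by at least `m` -/
structure Lower (F : W → W) (m : ℝ) : Prop where
  smooth : ContDiffOn ℝ ∞ F {0}ᶜ
  hom : ∀ r : ℝ, 0 ≤ r → ∀ v, F (r • v) = r • F v
  lower : ∀ v, v ≠ 0 → ∀ h, m * ‖h‖ ≤ ‖fderiv ℝ F v h‖

omit [FiniteDimensional ℝ W] [MeasurableSpace W] [BorelSpace W] in
lemma fderiv_cont {F : W → W} (hF : ContDiffOn ℝ ∞ F {0}ᶜ) : ContinuousOn (fderiv ℝ F) {0}ᶜ :=
  hF.continuousOn_fderiv_of_isOpen isOpen_compl_singleton (by simp)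

omit [FiniteDimensional ℝ W] [MeasurableSpace W] [BorelSpace W] in
lemma hasF {F : W → W} (hF : ContDiffOn ℝ ∞ F {0}ᶜ) {v : W} (hv : v ≠ 0) :
    HasFDerivAt F (fderiv ℝ F v) v :=
  ((hF.contDiffAt (isOpen_compl_singleton.mem_nhds hv)).differentiableAt (by simp)).hasFDerivAt

omit [FiniteDimensional ℝ W] [MeasurableSpace W] [BorelSpace W] in
/-- Euler's relation -/
lemma euler {F : W → W} (hF : ContDiffOn ℝ ∞ F {0}ᶜ)
    (hom : ∀ r : ℝ, 0 ≤ r → ∀ v, F (r • v) = r • F v) {v : W} (hv : v ≠ 0) :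
    fderiv ℝ F v v = F v := by
  have h1 : HasDerivAt (fun r : ℝ => r • v) v 1 := by
    simpa using (hasDerivAt_id (1:ℝ)).smul_const v
  have h2 : HasFDerivAt F (fderiv ℝ F v) ((1:ℝ) • v) := by
    rw [one_smul]; exact hasF hF hv
  have h3 := h2.comp_hasDerivAt (1:ℝ) h1
  have h4 : HasDerivAt (fun r : ℝ => r • F v) (F v) 1 := by
    simpa using (hasDerivAt_id (1:ℝ)).smul_const (F v)
  have h5 : (F ∘ fun r : ℝ => r • v) =ᶠ[𝓝 1] fun r => r • F v := by
    filter_upwards [Ioi_mem_nhds (show (0:ℝ) < 1 by norm_num)] with r hr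
    exact hom r (le_of_lt hr) v
  exact h3.unique (h4.congr_of_eventuallyEq h5)

omit [FiniteDimensional ℝ W] [MeasurableSpace W] [BorelSpace W] in
/-- the differential is homogeneous of degree zero -/
lemma fderiv_hom {F : W → W} (hF : ContDiffOn ℝ ∞ F {0}ᶜ)
    (hom : ∀ r : ℝ, 0 ≤ r → ∀ v, F (r • v) = r • F v) {v : W} (hv : v ≠ 0) {r : ℝ} (hr : 0 < r) :
    fderiv ℝ F (r • v) = fderiv ℝ F v := by
  have h1 : HasFDerivAt (fun x : W => r⁻¹ • x) (r⁻¹ • ContinuousLinearMap.id ℝ W) (r • v) :=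
    (hasFDerivAt_id _).const_smul _
  have h2 : HasFDerivAt F (fderiv ℝ F v) (r⁻¹ • r • v) := by
    rw [smul_smul, inv_mul_cancel₀ hr.ne', one_smul]
    exact hasF hF hv
  have h3 := (h2.comp (r • v) h1).const_smul r
  have h4 : (fun x : W => r • (F ∘ fun x : W => r⁻¹ • x) x) = F := by
    funext x
    show r • F (r⁻¹ • x) = F x
    rw [hom _ (inv_pos.2 hr).le, smul_smul, mul_inv_cancel₀ hr.ne', one_smul]
  have h5 : HasFDerivAt F (r • (fderiv ℝ F v).comp (r⁻¹ • ContinuousLinearMap.id ℝ W)) (r • v) := by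
    have h6 : (r • F ∘ fun x : W => r⁻¹ • x) = F := h4
    rw [← h6]
    rw [h6]
    exact h3.congr_of_eventuallyEq (Eventually.of_forall fun x => (congrFun h4 x).symm)
  rw [h5.fderiv]
  ext x
  simp [smul_smul, mul_inv_cancel₀ hr.ne']

/-- integrable data around a point -/
lemma int_fderiv {F : W → W} (hF : ContDiffOn ℝ ∞ F {0}ᶜ) {s : ℝ} (hs : 0 < s) {x : W}
    (hx : s < ‖x‖) : IntegrableOn (fun t => fderiv ℝ F (x - s • t)) (closedBall (0 : W) 1) :=
  int_ball (fderiv_cont hF) hs hx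

/-- the averaged differential stretches all vectors -/
lemma av_lower {F : W → W} {m : ℝ} (hF : Lower F m) {s : ℝ} (hs : 0 < s) {x : W}
    (hx : s < ‖x‖) {O : ℝ} {c : ℝ} (hOc : O < c)
    (hO : ∫ t in closedBall (0 : W) 1, kr t * ‖fderiv ℝ F (x - s • t) - av s (fderiv ℝ F) x‖ ≤ O)
    (h : W) : (m - c) * ‖h‖ ≤ ‖av s (fderiv ℝ F) x h‖ := by
  have hex : ∃ t : W, ‖t‖ ≤ 1 ∧ ‖fderiv ℝ F (x - s • t) - av s (fderiv ℝ F) x‖ ≤ c := by
    by_contra hne
    push Not at hne
    have hi := int_fderiv hF.smooth hs hx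
    have hcI : IntegrableOn (fun _ : W => av s (fderiv ℝ F) x) (closedBall (0 : W) 1) :=
      (continuousOn_const).integrableOn_compact (isCompact_closedBall (0:W) 1)
    have hk : IntegrableOn (fun t => kr t * ‖fderiv ℝ F (x - s • t) - av s (fderiv ℝ F) x‖)
      (closedBall (0 : W) 1) := kr_smul_intOn (hi.sub hcI).norm
    have hkr : IntegrableOn (fun t : W => (kr t : ℝ) * c) (closedBall (0 : W) 1) :=
      (kr_integrable.integrableOn).mul_const _
    have h1 : ∫ t in closedBall (0 : W) 1, (kr t : ℝ) * c ≤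
        ∫ t in closedBall (0 : W) 1, kr t * ‖fderiv ℝ F (x - s • t) - av s (fderiv ℝ F) x‖ := by
      refine setIntegral_mono_on hkr hk measurableSet_closedBall fun t ht => ?_
      rw [mem_closedBall_zero_iff] at ht
      exact mul_le_mul_of_nonneg_left (hne t ht).le (kr_nonneg t)
    rw [integral_mul_const, kr_intOn, one_mul] at h1
    linarith
  obtain ⟨t, ht, h2⟩ := hex
  have hne : x - s • t ≠ 0 := by
    intro h0
    have h3 : ‖x‖ = s * ‖t‖ := by
      rw [sub_eq_zero.1 h0, norm_smul, Real.norm_of_nonneg hs.le]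
    nlinarith
  have h3 := hF.lower _ hne h
  have h4 : ‖fderiv ℝ F (x - s • t) h‖ ≤
      ‖(fderiv ℝ F (x - s • t) - av s (fderiv ℝ F) x) h‖ + ‖av s (fderiv ℝ F) x h‖ := by
    have : fderiv ℝ F (x - s • t) h =
      (fderiv ℝ F (x - s • t) - av s (fderiv ℝ F) x) h + av s (fderiv ℝ F) x h := by
      simp
    rw [this]
    exact norm_add_le _ _
  have h5 := (fderiv ℝ F (x - s • t) - av s (fderiv ℝ F) x).le_opNorm h
  have h6 : ‖fderiv ℝ F (x - s • t) - av s (fderiv ℝ F) x‖ * ‖h‖ ≤ c * ‖h‖ :=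
    mul_le_mul_of_nonneg_right h2 (norm_nonneg _)
  linarith

/-- the value of the mollification is close to the value of the averaged differential -/
lemma av_value {F : W → W} (hFs : ContDiffOn ℝ ∞ F {0}ᶜ)
    (hom : ∀ r : ℝ, 0 ≤ r → ∀ v, F (r • v) = r • F v) {s : ℝ} (hs : 0 < s) {x : W}
    (hx : s < ‖x‖) {O : ℝ}
    (hO : ∫ t in closedBall (0 : W) 1, kr t * ‖fderiv ℝ F (x - s • t) - av s (fderiv ℝ F) x‖ ≤ O) :
    ‖MS s F x - av s (fderiv ℝ F) x x‖ ≤ s * O := by
  set A := av s (fderiv ℝ F) x with hA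
  have hne : ∀ t ∈ closedBall (0 : W) 1, x - s • t ≠ 0 := by
    intro t ht h0
    rw [mem_closedBall_zero_iff] at ht
    have h3 : ‖x‖ = s * ‖t‖ := by
      rw [sub_eq_zero.1 h0, norm_smul, Real.norm_of_nonneg hs.le]
    nlinarith
  have hi := int_fderiv hFs hs hx
  have hcI : ∀ c : W →L[ℝ] W, IntegrableOn (fun _ : W => c) (closedBall (0 : W) 1) := fun c =>
    (continuousOn_const).integrableOn_compact (isCompact_closedBall (0:W) 1)
  have hkF : IntegrableOn (fun t => kr t • F (x - s • t)) (closedBall (0 : W) 1) :=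
    kr_smul_intOn (int_ball hFs.continuousOn hs hx)
  have hkD : IntegrableOn (fun t => kr t • fderiv ℝ F (x - s • t)) (closedBall (0 : W) 1) :=
    kr_smul_intOn hi
  have hkt : IntegrableOn (fun t : W => kr t • (s • A t)) (closedBall (0 : W) 1) := by
    refine ContinuousOn.integrableOn_compact (isCompact_closedBall _ _) ?_
    exact (kr_smooth.continuous.smul (by fun_prop)).continuousOn
  have h0 : (∫ t in closedBall (0 : W) 1, kr t • (s • A t)) = 0 := by
    have h1 : (fun t : W => kr t • (s • A t)) = fun t => (s • A) (kr t • t) := by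
      funext t
      simp [smul_smul, mul_comm]
    rw [h1, ContinuousLinearMap.integral_comp_comm]
    · have h2 : (∫ t in closedBall (0 : W) 1, kr t • t) = ∫ t : W, kr t • t := by
        rw [setIntegral_eq_integral_of_forall_compl_eq_zero]
        intro t ht
        rw [mem_closedBall_zero_iff, not_le] at ht
        rw [kr_zero ht.le, zero_smul]
      rw [h2, int_kr_id, map_zero]
    · refine ContinuousOn.integrableOn_compact (isCompact_closedBall _ _) ?_
      exact (kr_smooth.continuous.smul continuous_id).continuousOn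
  have e1 : MS s F x = ∫ t in closedBall (0 : W) 1, kr t • F (x - s • t) := by
    rw [← av_eq, ← MM_eq hs.ne']
    rfl
  have e2 : A x = ∫ t in closedBall (0 : W) 1, kr t • fderiv ℝ F (x - s • t) x := by
    rw [hA, av_eq, ContinuousLinearMap.integral_apply hkD]
    rfl
  have hkDx : IntegrableOn (fun t => kr t • fderiv ℝ F (x - s • t) x) (closedBall (0 : W) 1) := by
    have := hkD.apply_continuousLinearMap x
    exact this
  have e3 : MS s F x - A x = ∫ t in closedBall (0 : W) 1,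
      (kr t • F (x - s • t) - kr t • fderiv ℝ F (x - s • t) x + kr t • (s • A t)) := by
    have hsub : IntegrableOn (fun t => kr t • F (x - s • t) - kr t • fderiv ℝ F (x - s • t) x)
      (closedBall (0 : W) 1) := hkF.sub hkDx
    rw [integral_add hsub hkt, h0, add_zero, integral_sub hkF hkDx, ← e1, ← e2]
  rw [e3]
  have hk : IntegrableOn (fun t => kr t * ‖fderiv ℝ F (x - s • t) - A‖)
      (closedBall (0 : W) 1) := kr_smul_intOn (hi.sub (hcI A)).norm
  calc ‖∫ t in closedBall (0 : W) 1,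
      (kr t • F (x - s • t) - kr t • fderiv ℝ F (x - s • t) x + kr t • (s • A t))‖
      ≤ ∫ t in closedBall (0 : W) 1, s * (kr t * ‖fderiv ℝ F (x - s • t) - A‖) := by
        refine norm_integral_le_of_norm_le (hk.const_mul _) ?_
        rw [ae_restrict_iff' measurableSet_closedBall]
        refine Eventually.of_forall fun t ht => ?_
        have h1 : fderiv ℝ F (x - s • t) (x - s • t) = F (x - s • t) := euler hFs hom (hne t ht)
        have h2 : kr t • F (x - s • t) - kr t • fderiv ℝ F (x - s • t) x + kr t • (s • A t) =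
            kr t • (-(s • (fderiv ℝ F (x - s • t) - A) t)) := by
          rw [← h1, map_sub, map_smul]
          simp only [sub_apply, smul_sub, smul_neg]
          abel
        rw [h2, norm_smul, norm_neg, norm_smul, Real.norm_of_nonneg (kr_nonneg t),
          Real.norm_of_nonneg hs.le]
        have h3 := (fderiv ℝ F (x - s • t) - A).le_opNorm t
        have h4 : ‖t‖ ≤ 1 := by rwa [mem_closedBall_zero_iff] at ht
        have h5 : ‖(fderiv ℝ F (x - s • t) - A) t‖ ≤ ‖fderiv ℝ F (x - s • t) - A‖ :=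
          h3.trans (mul_le_of_le_one_right (norm_nonneg _) h4)
        calc kr t * (s * ‖(fderiv ℝ F (x - s • t) - A) t‖)
            ≤ kr t * (s * ‖fderiv ℝ F (x - s • t) - A‖) :=
              mul_le_mul_of_nonneg_left (mul_le_mul_of_nonneg_left h5 hs.le) (kr_nonneg t)
          _ = _ := by ring
    _ = s * ∫ t in closedBall (0 : W) 1, kr t * ‖fderiv ℝ F (x - s • t) - A‖ :=
        integral_const_mul _ _
    _ ≤ s * O := mul_le_mul_of_nonneg_left hO hs.le

/-- small mean oscillation of the differential at the scale `s` around `x`, with the constant `κ` -/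
def Small (F : W → W) (κ s : ℝ) (x : W) : Prop :=
  ∃ C : W →L[ℝ] W, ∫ t in closedBall (0 : W) 1, ‖fderiv ℝ F (x - s • t) - C‖ ≤ κ

lemma Small.osc {F : W → W} (hFs : ContDiffOn ℝ ∞ F {0}ᶜ) {κ s : ℝ} {x : W} (hs : 0 < s)
    (hx : s < ‖x‖) (h : Small F κ s x) :
    ∫ t in closedBall (0 : W) 1, kr t * ‖fderiv ℝ F (x - s • t) - av s (fderiv ℝ F) x‖ ≤
      2 * kb W * κ := by
  obtain ⟨C, hC⟩ := h
  exact av_osc (int_fderiv hFs hs hx) hC

lemma Small.kappa_nonneg {F : W → W} {κ s : ℝ} {x : W} (h : Small F κ s x) : 0 ≤ κ := by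
  obtain ⟨C, hC⟩ := h
  exact (integral_nonneg fun t => norm_nonneg _).trans hC

/-- the derivative of the homogeneous mollification -/
lemma Gs_der {F : W → W} (hFs : ContDiffOn ℝ ∞ F {0}ᶜ) {s : ℝ} (hs : 0 < s) (hs1 : s < 1) {v : W}
    (hv : ‖v‖ = 1) : HasFDerivAt (Gs s F) (Dh (MS s F v) (av s (fderiv ℝ F) v) v) v :=
  hom_deriv hv (MS_hasFDerivAt hFs hs (by rw [hv]; exact hs1))

/-- its lower bound -/
lemma Dh_lower {F : W → W} {m : ℝ} (hF : Lower F m) {s : ℝ} (hs : 0 < s) (hs1 : s < 1) {v : W}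
    (hv : ‖v‖ = 1) {κ c : ℝ} (hκ : Small F κ s v) (hc : 2 * kb W * κ < c) (h : W) :
    (m - 2 * c) * ‖h‖ ≤ ‖Dh (MS s F v) (av s (fderiv ℝ F) v) v h‖ := by
  have hx : s < ‖v‖ := by rw [hv]; exact hs1
  have hO := hκ.osc hF.smooth hs hx
  have h1 := av_lower hF hs hx hc hO h
  have h2 := av_value hF.smooth hF.hom hs hx hO
  have hk0 : 0 ≤ 2 * kb W * κ := by
    have := hκ.kappa_nonneg
    have := kb_pos (W := W)
    positivity
  rw [Dh_apply, map_sub, map_smul]
  set A := av s (fderiv ℝ F) v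
  have h3 : (inner ℝ v h : ℝ) • MS s F v + (A h - (inner ℝ v h : ℝ) • A v) =
      A h + (inner ℝ v h : ℝ) • (MS s F v - A v) := by
    rw [smul_sub]
    abel
  rw [h3]
  have h4 : |(inner ℝ v h : ℝ)| ≤ ‖h‖ := by
    have := abs_real_inner_le_norm v h
    rwa [hv, one_mul] at this
  have h5 : ‖(inner ℝ v h : ℝ) • (MS s F v - A v)‖ ≤ ‖h‖ * c := by
    rw [norm_smul, Real.norm_eq_abs]
    refine mul_le_mul h4 (h2.trans ?_) (norm_nonneg _) (norm_nonneg _)
    calc s * (2 * kb W * κ) ≤ 1 * (2 * kb W * κ) := mul_le_mul_of_nonneg_right hs1.le hk0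
      _ ≤ c := by linarith
  have h6 := norm_sub_le (A h + (inner ℝ v h : ℝ) • (MS s F v - A v))
    ((inner ℝ v h : ℝ) • (MS s F v - A v))
  rw [add_sub_cancel_right] at h6
  nlinarith

/-- **the homogeneous mollification is a local diffeomorphism** -/
theorem Gs_HD_small {G : Set (W ≃ₗᵢ[ℝ] W)} {F : W → W} {m : ℝ} (hF : Lower F m)
    (hG : ∀ R ∈ G, ∀ v, F (R v) = R (F v)) {s : ℝ} (hs : 0 < s) (hs1 : s < 1) {κ c : ℝ}
    (hκ : ∀ v, ‖v‖ = 1 → Small F κ s v) (hc : 2 * kb W * κ < c) (hcm : 2 * c < m) :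
    HD G (Gs s F) := by
  refine ⟨Gs_hom s F, Gs_equi hs hG, der_of_unit (Gs_hom s F) fun v hv => ?_⟩
  obtain ⟨A, hA⟩ := equiv_of_lower (c := m - 2 * c) (by linarith)
    (Dh_lower hF hs hs1 hv (hκ v hv) hc)
  exact ⟨A, by rw [hA]; exact Gs_der hF.smooth hs hs1 hv⟩

end Pool.Agent.H13.Gap
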