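import Pool.Agent.H13.Gap.Chain

/-!
# Homogeneous maps with a differential of small mean oscillation are isotopic to the identity
-/

set_option autoImplicit false

open Set Filter Topology Metric Function MeasureTheory
open scoped ContDiff Convolution

noncomputable section

namespace Pool.Agent.H13.Gap

open Pool.Agent.Q196.NP

section abstract

variable {W : Type*} [NormedAddCommGroup W] [InnerProductSpace ℝ W] [FiniteDimensional ℝ W]

lemma hom_bound {F : W → W} (hFs : ContinuousOn F {0}ᶜ)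
    (hom : ∀ r : ℝ, 0 ≤ r → ∀ v, F (r • v) = r • F v) : ∃ M : ℝ, 0 ≤ M ∧ ∀ v, ‖F v‖ ≤ M * ‖v‖ := by
  obtain ⟨M, hM⟩ := (isCompact_sphere (0 : W) 1).exists_bound_of_continuousOn
    (hFs.mono fun v hv h0 => by
      rw [mem_singleton_iff.1 h0, mem_sphere, dist_self] at hv
      exact zero_ne_one hv)
  refine ⟨max M 0, le_max_right _ _, fun v => ?_⟩
  by_cases hv : v = 0
  · have h0 := hom 0 le_rfl 0
    rw [zero_smul, zero_smul] at h0
    rw [hv, h0, norm_zero, mul_zero]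
  · have hvp : 0 < ‖v‖ := norm_pos_iff.2 hv
    have h1 : F v = ‖v‖ • F (‖v‖⁻¹ • v) := by
      rw [hom _ (inv_pos.2 hvp).le, smul_smul, mul_inv_cancel₀ hvp.ne', one_smul]
    rw [h1, norm_smul, norm_norm, mul_comm]
    refine mul_le_mul_of_nonneg_right ?_ hvp.le
    refine (hM _ ?_).trans (le_max_left _ _)
    rw [mem_sphere_zero_iff_norm, norm_smul, norm_inv, norm_norm, inv_mul_cancel₀ hvp.ne']

lemma hom_continuous {F : W → W} (hFs : ContinuousOn F {0}ᶜ)
    (hom : ∀ r : ℝ, 0 ≤ r → ∀ v, F (r • v) = r • F v) : Continuous F := by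
  rw [continuous_iff_continuousAt]
  intro x
  by_cases hx : x = 0
  · obtain ⟨M, hM0, hM⟩ := hom_bound hFs hom
    have h0 := hom 0 le_rfl 0
    rw [zero_smul, zero_smul] at h0
    rw [hx, ContinuousAt, h0]
    refine squeeze_zero_norm hM ?_
    have h1 : Continuous fun v : W => M * ‖v‖ := by fun_prop
    have h2 := h1.tendsto 0
    simpa using h2
  · exact hFs.continuousAt (isOpen_compl_singleton.mem_nhds hx)

end abstract

variable {n : ℕ}

lemma HD_of_iso {G : Set (V n ≃ₗᵢ[ℝ] V n)} {f g : V n → V n} (h : Iso G f g) : HD G g := by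
  obtain ⟨Φ, -, hH, -, h1⟩ := h
  rw [← h1 1 le_rfl]
  exact hH 1

lemma inner_I (v : V n) : (inner ℝ v (Complex.I • v) : ℝ) = 0 := by
  simp only [PiLp.inner_apply]
  refine Finset.sum_eq_zero fun i _ => ?_
  show (inner ℝ (v i) (Complex.I * v i) : ℝ) = 0
  rw [Complex.inner]
  simp [Complex.mul_re]
  ring_nf

/-- **the main theorem for homogeneous maps** -/
theorem iso_small {F : V n → V n} {m : ℝ} (hF : Lower F m) (hm : 0 < m)
    (hU : ∀ R ∈ U1 n, ∀ v, F (R v) = R (F v)) (hHD : HD (U1 n) F) {κ : ℝ}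
    (hκ : ∀ v, ‖v‖ = 1 → ∀ s, 0 < s → s ≤ 1 / 4 → Small F κ s v)
    (hsm : 240 * (kn (V n) * κ) ≤ m) : Iso (U1 n) (fun v => v) F := by
  obtain ⟨v₀, hv₀⟩ : ∃ v₀ : V n, ‖v₀‖ = 1 :=
    ⟨EuclideanSpace.single 0 1, by simp⟩
  have hκ0 : 0 ≤ κ := (hκ v₀ hv₀ (1 / 4) (by norm_num) le_rfl).kappa_nonneg
  have hkn := kn_pos (W := V n)
  have hkb : 2 * kb (V n) * κ < m / 8 := by
    have h1 : kb (V n) * κ ≤ kn (V n) * κ := mul_le_mul_of_nonneg_right kb_le_kn hκ0
    nlinarith
  have hHDr : ∀ r, 0 < r → r ≤ 1 / 16 → HD (U1 n) (Gs r F) := by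
    intro r hr hr1
    exact Gs_HD_small hF hU hr (by linarith) (fun v hv => hκ v hv r hr (by linarith)) hkb
      (by linarith)
  have hI1 : Iso (U1 n) F (Gs (1 / 16) F) :=
    iso_Gs_of_HD hF.smooth hHD (by norm_num) (by norm_num) hHDr
  -- the linear map
  set A : V n → (V n →L[ℝ] V n) := fun v => av (1 / 16) (fderiv ℝ F) v with hA
  have hclose : ∀ v, ‖v‖ = 1 → ∀ h, ‖cpart (A v₀) h - A v h‖ ≤ 120 * (kn (V n) * κ) * ‖h‖ := by
    intro v hv h
    have hI : ‖Complex.I • v₀‖ = 1 := by rw [norm_smul, Complex.norm_I, hv₀, one_mul]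
    obtain ⟨u, hu, hu1, hu2⟩ : ∃ u : V n, ‖u‖ = 1 ∧ (0:ℝ) ≤ inner ℝ v₀ u ∧
        (0:ℝ) ≤ inner ℝ u v := by
      rcases le_total 0 (inner ℝ (Complex.I • v₀) v) with h0 | h0
      · exact ⟨Complex.I • v₀, hI, (inner_I v₀).ge, h0⟩
      · refine ⟨-(Complex.I • v₀), by rw [norm_neg, hI], ?_, ?_⟩
        · rw [inner_neg_right, inner_I]; simp
        · rw [inner_neg_left]; linarith
    have h1 := quarter hF.smooth hF.hom hκ hv₀ hu hu1
    have h2 := quarter hF.smooth hF.hom hκ hu hv hu2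
    have h3 := norm_cpart_sub hF.smooth hF.hom hU hκ hv₀ h
    have h4 : ‖A v₀ h - A v h‖ ≤ 96 * (kn (V n) * κ) * ‖h‖ := by
      have e : A v₀ h - A v h = -((A u - A v₀) h) - (A v - A u) h := by
        simp
      rw [e]
      have h5 := (A u - A v₀).le_opNorm h
      have h6 := (A v - A u).le_opNorm h
      have h7 : ‖A u - A v₀‖ * ‖h‖ ≤ 48 * (kn (V n) * κ) * ‖h‖ :=
        mul_le_mul_of_nonneg_right h1 (norm_nonneg h)
      have h8 : ‖A v - A u‖ * ‖h‖ ≤ 48 * (kn (V n) * κ) * ‖h‖ :=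
        mul_le_mul_of_nonneg_right h2 (norm_nonneg h)
      have h9 := norm_sub_le (-((A u - A v₀) h)) ((A v - A u) h)
      rw [norm_neg] at h9
      linarith
    have e2 : cpart (A v₀) h - A v h = (cpart (A v₀) h - A v₀ h) + (A v₀ h - A v h) := by abel
    rw [e2]
    refine (norm_add_le _ _).trans ?_
    linarith
  have hlow : ∀ τ : ℝ, 0 ≤ τ → τ ≤ 1 → ∀ v, ‖v‖ = 1 → ∀ h : V n,
      m / 4 * ‖h‖ ≤ ‖(1 - τ) • Dh (MS (1 / 16) F v) (A v) v h + τ • cpart (A v₀) h‖ := by
    intro τ hτ0 hτ1 v hv h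
    have hxv : (1:ℝ) / 16 < ‖v‖ := by rw [hv]; norm_num
    have hS := hκ v hv (1 / 16) (by norm_num) (by norm_num)
    have hO := hS.osc hF.smooth (by norm_num) hxv
    have h1 := av_lower hF (by norm_num) hxv hkb hO h
    have h2 := av_value hF.smooth hF.hom (by norm_num) hxv hO
    have h3 := hclose v hv h
    have h4 : |(inner ℝ v h : ℝ)| ≤ ‖h‖ := by
      have := abs_real_inner_le_norm v h
      rwa [hv, one_mul] at this
    have e : (1 - τ) • Dh (MS (1 / 16) F v) (A v) v h + τ • cpart (A v₀) h =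
        A v h + ((1 - τ) • ((inner ℝ v h : ℝ) • (MS (1 / 16) F v - A v v)) +
          τ • (cpart (A v₀) h - A v h)) := by
      rw [Dh_apply, map_sub, map_smul]
      module
    rw [e]
    have h5 : ‖(1 - τ) • ((inner ℝ v h : ℝ) • (MS (1 / 16) F v - A v v))‖ ≤ m / 8 * ‖h‖ := by
      rw [norm_smul, norm_smul, Real.norm_of_nonneg (by linarith), Real.norm_eq_abs]
      have h6 : ‖MS (1 / 16) F v - A v v‖ ≤ m / 8 := by
        refine h2.trans ?_
        have : 0 ≤ 2 * kb (V n) * κ := by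
          have := kb_pos (W := V n)
          positivity
        linarith
      calc (1 - τ) * (|(inner ℝ v h : ℝ)| * ‖MS (1 / 16) F v - A v v‖)
          ≤ 1 * (‖h‖ * (m / 8)) := by
            refine mul_le_mul (by linarith) (mul_le_mul h4 h6 (norm_nonneg _) (norm_nonneg _))
              (by positivity) zero_le_one
        _ = m / 8 * ‖h‖ := by ring
    have h6 : ‖τ • (cpart (A v₀) h - A v h)‖ ≤ m / 2 * ‖h‖ := by
      rw [norm_smul, Real.norm_of_nonneg hτ0]
      calc τ * ‖cpart (A v₀) h - A v h‖ ≤ 1 * (120 * (kn (V n) * κ) * ‖h‖) :=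
            mul_le_mul hτ1 h3 (norm_nonneg _) zero_le_one
        _ ≤ m / 2 * ‖h‖ := by
            rw [one_mul]
            exact mul_le_mul_of_nonneg_right (by linarith) (norm_nonneg _)
    set X := (1 - τ) • ((inner ℝ v h : ℝ) • (MS (1 / 16) F v - A v v))
    set Y := τ • (cpart (A v₀) h - A v h)
    have h7 : ‖X + Y‖ ≤ ‖X‖ + ‖Y‖ := norm_add_le _ _
    have h8 : ‖A v h‖ ≤ ‖A v h + (X + Y)‖ + ‖X + Y‖ := by
      have := norm_sub_le (A v h + (X + Y)) (X + Y)
      rwa [add_sub_cancel_right] at this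
    nlinarith [norm_nonneg h]
  -- the linear map is an isomorphism
  have hBinj : Injective (cpart (A v₀)) := by
    rw [injective_iff_map_eq_zero]
    intro h hh
    have h1 := hlow 1 zero_le_one le_rfl v₀ hv₀ h
    rw [hh, sub_self, zero_smul, smul_zero, add_zero, norm_zero] at h1
    have h2 : ‖h‖ ≤ 0 := by
      by_contra h3
      push Not at h3
      nlinarith
    exact norm_le_zero_iff.1 h2
  let B : V n ≃L[ℂ] V n := (LinearEquiv.ofInjectiveEndo (cpart (A v₀)) hBinj).toContinuousLinearEquiv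
  have hB : ∀ h, B h = cpart (A v₀) h := fun h => rfl
  have hI2 := iso_linear B
  have hBHD : HD (U1 n) (fun v => B v) := HD_of_iso hI2
  have hFc : Continuous F := hom_continuous hF.smooth.continuousOn hF.hom
  have hBs : ContDiff ℝ ∞ (fun v : V n => B v) :=
    ((B : V n →L[ℂ] V n).restrictScalars ℝ).contDiff
  have hI3 : Iso (U1 n) (Gs (1 / 16) F) (fun v => B v) := by
    refine Iso.straight (Gs_smooth hFc (by norm_num)) hBs.contDiffOn
      (hHDr _ (by norm_num) le_rfl) hBHD ?_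
    intro τ hτ0 hτ1 x hx
    have hd1 : HasFDerivAt (Gs (1 / 16) F) (Dh (MS (1 / 16) F x) (A x) x) x :=
      Gs_der hF.smooth (by norm_num) (by norm_num) hx
    have hd2 : HasFDerivAt (fun v : V n => B v) ((B : V n →L[ℂ] V n).restrictScalars ℝ) x :=
      ((B : V n →L[ℂ] V n).restrictScalars ℝ).hasFDerivAt
    obtain ⟨E, hE⟩ := equiv_of_lower (D := (1 - τ) • Dh (MS (1 / 16) F x) (A x) x +
      τ • ((B : V n →L[ℂ] V n).restrictScalars ℝ)) (c := m / 4) (by linarith)
      (fun h => hlow τ hτ0 hτ1 x hx h)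
    exact ⟨E, by rw [hE]; exact (hd1.const_smul (1 - τ)).add (hd2.const_smul τ)⟩
  exact hI2.trans (hI3.symm.trans hI1.symm)

end Pool.Agent.H13.Gap
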