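import Pool.Graph.R_pool_sql_team_seeded_3997aac3.Q196.NP.Lin

/-!
# Mollification of homogeneous maps with small mean oscillation of the differential
-/

set_option autoImplicit false

open Set Filter Topology Metric Function MeasureTheory
open scoped ContDiff Convolution

noncomputable section

namespace Pool.Agent.H13.Gap

open Pool.Agent.Q196.NP

variable {W : Type*} [NormedAddCommGroup W] [InnerProductSpace ℝ W] [FiniteDimensional ℝ W]
  [MeasurableSpace W] [BorelSpace W]

/-- a smooth homogeneous map is isotopic to its mollification if the mollifications at smaller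
scales are local diffeomorphisms -/
theorem iso_Gs_of_HD {G : Set (W ≃ₗᵢ[ℝ] W)} {F : W → W} (hFs : ContDiffOn ℝ ∞ F {0}ᶜ)
    (hFH : HD G F) {s : ℝ} (hs : 0 < s) (hs1 : s ≤ 1 / 2)
    (hn : ∀ r, 0 < r → r ≤ s → HD G (Gs r F)) : Iso G F (Gs s F) := by
  obtain ⟨b, hb, hb0, hb1⟩ := exists_cut (W := W)
  set F1 : W → W := fun x => b x • F x with hF1
  have hF1s : ContDiff ℝ ∞ F1 := by
    rw [contDiff_iff_contDiffAt]
    intro x
    by_cases hx : x = 0
    · have h1 : F1 =ᶠ[𝓝 x] fun _ => 0 := by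
        rw [hx]
        filter_upwards [hb0] with y hy
        show b y • F y = 0
        rw [hy, zero_smul]
      exact contDiffAt_const.congr_of_eventuallyEq h1
    · exact hb.contDiffAt.smul (hFs.contDiffAt (isOpen_compl_singleton.mem_nhds hx))
  have hMM : ∀ (σ : ℝ) (v : W), ‖v‖ = 1 → 0 ≤ σ → σ ≤ s → MM F1 σ v = MM F σ v := by
    intro σ v hv hσ hσs
    show (∫ t, kr t • F1 (v - σ • t)) = ∫ t, kr t • F (v - σ • t)
    congr 1
    funext t
    by_cases ht : ‖t‖ ≤ 1
    · have h1 : 1 / 2 ≤ ‖v - σ • t‖ := by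
        have h2 := norm_sub_norm_le v (σ • t)
        rw [norm_smul, hv, Real.norm_of_nonneg hσ] at h2
        nlinarith [norm_nonneg t]
      show kr t • (b (v - σ • t) • F (v - σ • t)) = _
      rw [hb1 _ h1, one_smul]
    · rw [kr_zero (not_le.1 ht).le, zero_smul, zero_smul]
  have hpos : ∀ τ : ℝ, Real.smoothTransition τ = 0 ∨
      (0 < s * Real.smoothTransition τ ∧ s * Real.smoothTransition τ ≤ s) := by
    intro τ
    rcases (Real.smoothTransition.nonneg τ).eq_or_lt with h | h
    · exact Or.inl h.symm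
    · exact Or.inr ⟨mul_pos hs h, by
        nlinarith [Real.smoothTransition.le_one τ]⟩
  set Φ : ℝ → W → W := fun τ v => ‖v‖ • MM F1 (s * Real.smoothTransition τ) (‖v‖⁻¹ • v) with hΦ
  have hunit : ∀ v : W, v ≠ 0 → ‖‖v‖⁻¹ • v‖ = 1 := by
    intro v hv
    rw [norm_smul, norm_inv, norm_norm, inv_mul_cancel₀ (norm_ne_zero_iff.2 hv)]
  have hΦ0 : ∀ τ : ℝ, Real.smoothTransition τ = 0 → Φ τ = F := by
    intro τ hτ
    funext v
    by_cases hv : v = 0
    · rw [hv]
      have h0 := hFH.hom 0 le_rfl 0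
      rw [zero_smul, zero_smul] at h0
      show ‖(0:W)‖ • _ = F 0
      rw [norm_zero, zero_smul, h0]
    · show ‖v‖ • MM F1 (s * Real.smoothTransition τ) (‖v‖⁻¹ • v) = F v
      rw [hMM _ _ (hunit v hv) (by rw [hτ, mul_zero]) (by rw [hτ, mul_zero]; exact hs.le), hτ,
        mul_zero, MM_zero, hFH.hom _ (inv_nonneg.2 (norm_nonneg v)), smul_smul,
        mul_inv_cancel₀ (norm_ne_zero_iff.2 hv), one_smul]
  have hΦ1 : ∀ τ : ℝ, 0 < s * Real.smoothTransition τ → s * Real.smoothTransition τ ≤ s →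
      Φ τ = Gs (s * Real.smoothTransition τ) F := by
    intro τ h1 h2
    funext v
    by_cases hv : v = 0
    · rw [hv]
      show ‖(0:W)‖ • _ = ‖(0:W)‖ • _
      rw [norm_zero, zero_smul, zero_smul]
    · show ‖v‖ • MM F1 (s * Real.smoothTransition τ) (‖v‖⁻¹ • v) =
        ‖v‖ • MS (s * Real.smoothTransition τ) F (‖v‖⁻¹ • v)
      rw [hMM _ _ (hunit v hv) h1.le h2, MM_eq h1.ne']
  refine ⟨Φ, ?_, ?_, ?_, ?_⟩
  · have a0 : ContDiffOn ℝ ∞ (fun p : ℝ × W => s * Real.smoothTransition p.1) (univ ×ˢ {0}ᶜ) :=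
      (contDiff_const.mul (Real.smoothTransition.contDiff.comp contDiff_fst)).contDiffOn
    have a1 : ContDiffOn ℝ ∞ (fun p : ℝ × W => ‖p.2‖⁻¹ • p.2) (univ ×ˢ {0}ᶜ) :=
      (dir_contDiffOn (W := W)).comp contDiff_snd.contDiffOn fun p hp => hp.2
    have a2 : ContDiffOn ℝ ∞ (fun p : ℝ × W => ‖p.2‖) (univ ×ˢ {0}ᶜ) :=
      (norm_contDiffOn (W := W)).comp contDiff_snd.contDiffOn fun p hp => hp.2
    exact a2.smul ((MM_smooth hF1s).comp_contDiffOn (a0.prodMk a1))
  · intro τ
    rcases hpos τ with h | ⟨h, h'⟩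
    · rw [hΦ0 τ h]
      exact hFH
    · rw [hΦ1 τ h h']
      exact hn _ h h'
  · intro τ hτ
    exact hΦ0 τ (Real.smoothTransition.zero_of_nonpos hτ)
  · intro τ hτ
    have h1 : Real.smoothTransition τ = 1 := Real.smoothTransition.one_of_one_le hτ
    have h2 := hΦ1 τ (by rw [h1, mul_one]; exact hs) (by rw [h1, mul_one])
    rw [h2, h1, mul_one]

/-- the weighted average of a function with values in any space -/
def av {E : Type*} [NormedAddCommGroup E] [NormedSpace ℝ E] (s : ℝ) (g : W → E) (x : W) : E :=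
  ∫ t, kr t • g (x - s • t)

/-- the bound of the kernel -/
def kb (W : Type*) [NormedAddCommGroup W] [InnerProductSpace ℝ W] [FiniteDimensional ℝ W]
    [MeasurableSpace W] [BorelSpace W] : ℝ := (∫ s : W, k0 s)⁻¹

lemma kb_pos : 0 < kb W := inv_pos.2 k0_pos

lemma kr_le (t : W) : kr t ≤ kb W := by
  unfold kr kb
  have h1 : (k0 t : ℝ) ≤ 1 := Real.smoothTransition.le_one _
  have h2 : 0 < (∫ s : W, k0 s)⁻¹ := inv_pos.2 k0_pos
  nlinarith

/-- a function which is continuous off the origin is integrable on compact sets which do not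
contain the origin, here the ball around `x` -/
lemma int_ball {E : Type*} [NormedAddCommGroup E] {g : W → E} (hg : ContinuousOn g {0}ᶜ)
    {x : W} {s : ℝ} (hs : 0 < s) (hx : s < ‖x‖) :
    IntegrableOn (fun t => g (x - s • t)) (closedBall (0 : W) 1) := by
  refine ContinuousOn.integrableOn_compact (isCompact_closedBall _ _) ?_
  refine hg.comp (by fun_prop) ?_
  intro t ht
  rw [mem_closedBall_zero_iff] at ht
  intro h
  have h1 : x - s • t = 0 := h
  have h2 : ‖x‖ = s * ‖t‖ := by
    rw [sub_eq_zero.1 h1, norm_smul, Real.norm_of_nonneg hs.le]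
  nlinarith

lemma av_eq {E : Type*} [NormedAddCommGroup E] [NormedSpace ℝ E] (s : ℝ) (g : W → E) (x : W) :
    av s g x = ∫ t in closedBall (0 : W) 1, kr t • g (x - s • t) := by
  unfold av
  rw [setIntegral_eq_integral_of_forall_compl_eq_zero]
  intro t ht
  rw [mem_closedBall_zero_iff, not_le] at ht
  rw [kr_zero ht.le, zero_smul]

lemma kr_smul_intOn {E : Type*} [NormedAddCommGroup E] [NormedSpace ℝ E] {g : W → E}
    (hg : IntegrableOn g (closedBall (0 : W) 1)) :
    IntegrableOn (fun t => kr t • g t) (closedBall (0 : W) 1) := by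
  exact Integrable.bdd_smul hg (kb W) kr_smooth.continuous.aestronglyMeasurable
    (Eventually.of_forall fun t => by
      rw [Real.norm_of_nonneg (kr_nonneg t)]
      exact kr_le t)

lemma kr_intOn : ∫ t in closedBall (0 : W) 1, (kr t : ℝ) = 1 := by
  rw [setIntegral_eq_integral_of_forall_compl_eq_zero, kr_int]
  intro t ht
  rw [mem_closedBall_zero_iff, not_le] at ht
  exact kr_zero ht.le

/-- the average is close to a constant if the function is close to it in the mean -/
lemma av_close {E : Type*} [NormedAddCommGroup E] [NormedSpace ℝ E] [CompleteSpace E] {g : W → E}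
    {s : ℝ} {x : W}
    (hg : IntegrableOn (fun t => g (x - s • t)) (closedBall (0 : W) 1)) {c : E} {κ : ℝ}
    (h : ∫ t in closedBall (0 : W) 1, ‖g (x - s • t) - c‖ ≤ κ) :
    ‖av s g x - c‖ ≤ kb W * κ := by
  have hi := kr_smul_intOn hg
  have hc : IntegrableOn (fun _ : W => c) (closedBall (0 : W) 1) :=
    integrableOn_const (by exact (isCompact_closedBall (0:W) 1).measure_lt_top.ne)
  have hi2 := kr_smul_intOn hc
  have e1 : av s g x - c = ∫ t in closedBall (0 : W) 1, kr t • (g (x - s • t) - c) := by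
    rw [av_eq]
    simp_rw [smul_sub]
    rw [integral_sub hi hi2, integral_smul_const, kr_intOn, one_smul]
  rw [e1]
  have hn : IntegrableOn (fun t => ‖g (x - s • t) - c‖) (closedBall (0 : W) 1) := (hg.sub hc).norm
  calc ‖∫ t in closedBall (0 : W) 1, kr t • (g (x - s • t) - c)‖
      ≤ ∫ t in closedBall (0 : W) 1, kb W * ‖g (x - s • t) - c‖ := by
        refine norm_integral_le_of_norm_le (hn.const_mul _) (Eventually.of_forall fun t => ?_)
        rw [norm_smul, Real.norm_of_nonneg (kr_nonneg t)]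
        exact mul_le_mul_of_nonneg_right (kr_le t) (norm_nonneg _)
    _ = kb W * ∫ t in closedBall (0 : W) 1, ‖g (x - s • t) - c‖ := integral_const_mul _ _
    _ ≤ kb W * κ := mul_le_mul_of_nonneg_left h kb_pos.le

/-- the weighted mean oscillation around the average -/
lemma av_osc {E : Type*} [NormedAddCommGroup E] [NormedSpace ℝ E] [CompleteSpace E] {g : W → E}
    {s : ℝ} {x : W}
    (hg : IntegrableOn (fun t => g (x - s • t)) (closedBall (0 : W) 1)) {c : E} {κ : ℝ}
    (h : ∫ t in closedBall (0 : W) 1, ‖g (x - s • t) - c‖ ≤ κ) :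
    ∫ t in closedBall (0 : W) 1, kr t * ‖g (x - s • t) - av s g x‖ ≤ 2 * kb W * κ := by
  have hc : ∀ c : E, IntegrableOn (fun _ : W => c) (closedBall (0 : W) 1) := fun c =>
    integrableOn_const (by exact (isCompact_closedBall (0:W) 1).measure_lt_top.ne)
  have h1 := av_close hg h
  have hn : ∀ c : E, IntegrableOn (fun t => ‖g (x - s • t) - c‖) (closedBall (0 : W) 1) :=
    fun c' => (hg.sub (hc c')).norm
  have hk : ∀ c : E, IntegrableOn (fun t => kr t * ‖g (x - s • t) - c‖) (closedBall (0 : W) 1) :=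
    fun c' => kr_smul_intOn (hn c')
  have hkr : IntegrableOn (fun t : W => (kr t : ℝ)) (closedBall (0 : W) 1) :=
    kr_integrable.integrableOn
  calc ∫ t in closedBall (0 : W) 1, kr t * ‖g (x - s • t) - av s g x‖
      ≤ ∫ t in closedBall (0 : W) 1, (kr t * ‖g (x - s • t) - c‖ + kr t * (kb W * κ)) := by
        refine integral_mono (hk _) ((hk c).add (hkr.mul_const _)) fun t => ?_
        show kr t * ‖g (x - s • t) - av s g x‖ ≤ kr t * ‖g (x - s • t) - c‖ + kr t * (kb W * κ)
        rw [← mul_add]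
        refine mul_le_mul_of_nonneg_left ?_ (kr_nonneg t)
        calc ‖g (x - s • t) - av s g x‖ = ‖(g (x - s • t) - c) - (av s g x - c)‖ := by
              congr 1; abel
          _ ≤ ‖g (x - s • t) - c‖ + ‖av s g x - c‖ := norm_sub_le _ _
          _ ≤ _ := by linarith
    _ = (∫ t in closedBall (0 : W) 1, kr t * ‖g (x - s • t) - c‖) + kb W * κ := by
        rw [integral_add (hk c) (hkr.mul_const _), integral_mul_const, kr_intOn, one_mul]
    _ ≤ (∫ t in closedBall (0 : W) 1, kb W * ‖g (x - s • t) - c‖) + kb W * κ := by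
        refine add_le_add_left (integral_mono (hk c) ((hn c).const_mul _) fun t => ?_) _
        exact mul_le_mul_of_nonneg_right (kr_le t) (norm_nonneg _)
    _ ≤ 2 * kb W * κ := by
        rw [integral_const_mul]
        nlinarith [kb_pos (W := W), mul_le_mul_of_nonneg_left h (kb_pos (W := W)).le]

/-- differentiation of the mollification under the integral -/
theorem MS_hasFDerivAt {F : W → W} (hFs : ContDiffOn ℝ ∞ F {0}ᶜ) {s : ℝ} (hs : 0 < s) {x : W}
    (hx : s < ‖x‖) : HasFDerivAt (MS s F) (av s (fderiv ℝ F) x) x := by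
  -- cut off
  let b : ContDiffBump x := ⟨(2 * s + ‖x‖) / 3, (s + 2 * ‖x‖) / 3, by linarith, by linarith⟩
  set F1 : W → W := fun y => b y • F y with hF1
  have hb0 : ∀ y, (s + 2 * ‖x‖) / 3 ≤ ‖y - x‖ → b y = 0 := by
    intro y hy
    apply b.zero_of_le_dist
    rw [dist_eq_norm]
    exact hy
  have hF1s : ContDiff ℝ ∞ F1 := by
    rw [contDiff_iff_contDiffAt]
    intro y
    by_cases hy : y = 0
    · have h1 : F1 =ᶠ[𝓝 y] fun _ => 0 := by
        have h2 : ∀ᶠ z in 𝓝 y, (s + 2 * ‖x‖) / 3 < ‖z - x‖ := by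
          have h3 : ContinuousAt (fun z : W => ‖z - x‖) y := by fun_prop
          apply h3.eventually (lt_mem_nhds _)
          show (s + 2 * ‖x‖) / 3 < ‖y - x‖
          rw [hy, zero_sub, norm_neg]
          linarith
        filter_upwards [h2] with z hz
        show b z • F z = 0
        rw [hb0 z hz.le, zero_smul]
      exact contDiffAt_const.congr_of_eventuallyEq h1
    · exact b.contDiffAt.smul (hFs.contDiffAt (isOpen_compl_singleton.mem_nhds hy))
  have hcs : HasCompactSupport F1 := b.hasCompactSupport.smul_right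
  have hb1 : ∀ y, ‖y - x‖ ≤ (2 * s + ‖x‖) / 3 → b y = 1 := by
    intro y hy
    apply b.one_of_mem_closedBall
    rw [mem_closedBall, dist_eq_norm]
    exact hy
  -- near x the mollifications agree
  have hEq : MS s F =ᶠ[𝓝 x] MS s F1 := by
    have h2 : ∀ᶠ z in 𝓝 x, ‖z - x‖ < (‖x‖ - s) / 3 := by
      have h3 : ContinuousAt (fun z : W => ‖z - x‖) x := by fun_prop
      apply h3.eventually (gt_mem_nhds _)
      show ‖x - x‖ < (‖x‖ - s) / 3
      rw [sub_self, norm_zero]
      linarith
    filter_upwards [h2] with z hz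
    refine MS_congr hs fun w hw => ?_
    show F (z + w) = b (z + w) • F (z + w)
    rw [hb1, one_smul]
    calc ‖z + w - x‖ = ‖(z - x) + w‖ := by congr 1; abel
      _ ≤ ‖z - x‖ + ‖w‖ := norm_add_le _ _
      _ ≤ _ := by linarith
  -- derivative of the smooth one
  have hg : ContDiff ℝ 1 fun y => F1 (s • y) :=
    (hF1s.of_le (by simp)).comp (contDiff_const_smul s)
  have hgcs : HasCompactSupport fun y => F1 (s • y) :=
    hcs.comp_homeomorph (Homeomorph.smulOfNeZero s hs.ne')
  have hd := hgcs.hasFDerivAt_convolution_right (ContinuousLinearMap.lsmul ℝ ℝ)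
    (kr_integrable (W := W)).locallyIntegrable hg (s⁻¹ • x)
  have hd1 : HasFDerivAt (MS s F1) (((kr ⋆[(ContinuousLinearMap.lsmul ℝ ℝ).precompR W, volume]
      fderiv ℝ fun y => F1 (s • y)) (s⁻¹ • x)).comp (s⁻¹ • ContinuousLinearMap.id ℝ W)) x :=
    hd.comp x ((hasFDerivAt_id x).const_smul s⁻¹)
  have hd2 := hd1.congr_of_eventuallyEq hEq
  refine hd2.congr_fderiv ?_
  have hgd : ∀ y, fderiv ℝ (fun y => F1 (s • y)) y = (fderiv ℝ F1 (s • y)).comp
      (s • ContinuousLinearMap.id ℝ W) := by
    intro y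
    have h1 : HasFDerivAt F1 (fderiv ℝ F1 (s • y)) (s • y) :=
      (hF1s.differentiable (by simp) _).hasFDerivAt
    exact (h1.comp y ((hasFDerivAt_id y).const_smul s)).fderiv
  rw [convolution_def]
  have hcont : Continuous (fderiv ℝ F1) := hF1s.continuous_fderiv (by simp)
  have hcont2 : Continuous (fderiv ℝ fun y => F1 (s • y)) := hg.continuous_fderiv one_ne_zero
  have hint : Integrable (fun t => ((ContinuousLinearMap.lsmul ℝ ℝ : ℝ →L[ℝ] W →L[ℝ] W).precompR W)
      (kr t) (fderiv ℝ (fun y => F1 (s • y)) (s⁻¹ • x - t))) := by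
    have h1 := (kr_hasCompactSupport (W := W)).convolutionExists_left
      ((ContinuousLinearMap.lsmul ℝ ℝ : ℝ →L[ℝ] W →L[ℝ] W).precompR W) kr_smooth.continuous
      (hcont2.locallyIntegrable (μ := volume)) (s⁻¹ • x)
    exact h1.integrable
  ext1 h
  rw [ContinuousLinearMap.comp_apply, ContinuousLinearMap.integral_apply hint]
  unfold av
  have hint2 : Integrable (fun t : W => kr t • fderiv ℝ F (x - s • t)) := by
    have h1 : (fun t : W => kr t • fderiv ℝ F (x - s • t)) = fun t => kr t • fderiv ℝ F1 (x - s • t) := by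
      funext t
      by_cases ht : ‖t‖ ≤ 1
      · congr 1
        refine Filter.EventuallyEq.fderiv_eq ?_
        have h3 : ∀ᶠ z in 𝓝 (x - s • t), ‖z - x‖ < (2 * s + ‖x‖) / 3 := by
          have h4 : ContinuousAt (fun z : W => ‖z - x‖) (x - s • t) := by fun_prop
          apply h4.eventually (gt_mem_nhds _)
          show ‖x - s • t - x‖ < (2 * s + ‖x‖) / 3
          have : x - s • t - x = -(s • t) := by abel
          rw [this, norm_neg, norm_smul, Real.norm_of_nonneg hs.le]
          nlinarith [norm_nonneg t]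
        filter_upwards [h3] with z hz
        show F z = b z • F z
        rw [hb1 z hz.le, one_smul]
      · rw [kr_zero (not_le.1 ht).le, zero_smul, zero_smul]
    rw [h1]
    have hcc : Continuous fun t : W => kr t • fderiv ℝ F1 (x - s • t) :=
      kr_smooth.continuous.smul (hcont.comp (by fun_prop))
    exact hcc.integrable_of_hasCompactSupport kr_hasCompactSupport.smul_right
  rw [ContinuousLinearMap.integral_apply hint2]
  congr 1
  funext t
  show kr t • (fderiv ℝ (fun y => F1 (s • y)) (s⁻¹ • x - t)) (s⁻¹ • h) =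
    kr t • (fderiv ℝ F (x - s • t)) h
  by_cases ht : ‖t‖ ≤ 1
  · congr 1
    rw [hgd]
    show fderiv ℝ F1 (s • (s⁻¹ • x - t)) (s • (s⁻¹ • h)) = _
    rw [smul_smul s s⁻¹ h, mul_inv_cancel₀ hs.ne', one_smul, smul_sub, smul_smul,
      mul_inv_cancel₀ hs.ne', one_smul]
    congr 1
    symm
    refine Filter.EventuallyEq.fderiv_eq ?_
    have h3 : ∀ᶠ z in 𝓝 (x - s • t), ‖z - x‖ < (2 * s + ‖x‖) / 3 := by
      have h4 : ContinuousAt (fun z : W => ‖z - x‖) (x - s • t) := by fun_prop
      apply h4.eventually (gt_mem_nhds _)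
      show ‖x - s • t - x‖ < (2 * s + ‖x‖) / 3
      have : x - s • t - x = -(s • t) := by abel
      rw [this, norm_neg, norm_smul, Real.norm_of_nonneg hs.le]
      nlinarith [norm_nonneg t]
    filter_upwards [h3] with z hz
    show F z = b z • F z
    rw [hb1 z hz.le, one_smul]
  · rw [kr_zero (not_le.1 ht).le, zero_smul, zero_smul]

end Pool.Agent.H13.Gap
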