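import Pool.Agent.H13.Gap.Main

/-!
# Poincaré's inequality on the unit ball
-/

set_option autoImplicit false

open Set Filter Topology Metric Function MeasureTheory
open scoped ENNReal

noncomputable section

namespace Pool.Agent.H13.Gap

variable {W : Type*} [NormedAddCommGroup W] [InnerProductSpace ℝ W] [FiniteDimensional ℝ W]
  [MeasurableSpace W] [BorelSpace W]

lemma lint_smul {f : W → ℝ≥0∞} (hf : Measurable f) {r : ℝ} (hr : 0 < r) :
    ∫⁻ t, f (r • t) = ENNReal.ofReal ((r ^ Module.finrank ℝ W)⁻¹) * ∫⁻ t, f t := by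
  rw [← lintegral_map hf (measurable_const_smul r), Measure.map_addHaar_smul _ hr.ne',
    lintegral_smul_measure, abs_of_pos (by positivity), smul_eq_mul]

lemma lscale_le {f : W → ℝ≥0∞} (hf : Measurable f) {r : ℝ} (hr : 0 < r) {y : W}
    (hy : r + ‖y‖ ≤ 1) :
    ∫⁻ t in closedBall (0 : W) 1, f (r • t + y) ≤
      ENNReal.ofReal ((r ^ Module.finrank ℝ W)⁻¹) * ∫⁻ t in closedBall (0 : W) 1, f t := by
  set B := closedBall (0 : W) 1 with hB
  have hBm : MeasurableSet B := measurableSet_closedBall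
  set h : W → ℝ≥0∞ := B.indicator f with hh
  have hhm : Measurable h := hf.indicator hBm
  have h1 : ∫⁻ t, h (r • t + y) = ENNReal.ofReal ((r ^ Module.finrank ℝ W)⁻¹) * ∫⁻ t in B, f t := by
    have e1 := lint_smul (f := fun x => h (x + y)) (hhm.comp (measurable_add_const y)) hr
    have e2 : (∫⁻ x, h (x + y)) = ∫⁻ x, h x := lintegral_add_right_eq_self h y
    rw [e1, e2, hh, lintegral_indicator hBm]
  rw [← h1, ← lintegral_indicator hBm]
  refine lintegral_mono fun t => ?_
  show B.indicator (fun t => f (r • t + y)) t ≤ h (r • t + y)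
  by_cases ht : t ∈ B
  · rw [indicator_of_mem ht, hh, indicator_of_mem]
    rw [hB, mem_closedBall_zero_iff] at ht ⊢
    calc ‖r • t + y‖ ≤ ‖r • t‖ + ‖y‖ := norm_add_le _ _
      _ ≤ r + ‖y‖ := by
          rw [norm_smul, Real.norm_of_nonneg hr.le]
          nlinarith
      _ ≤ 1 := hy
  · rw [indicator_of_notMem ht]
    exact zero_le

omit [FiniteDimensional ℝ W] [MeasurableSpace W] [BorelSpace W] in
lemma half_bound {r : ℝ} (hr : 1 / 2 ≤ r) :
    ENNReal.ofReal ((r ^ Module.finrank ℝ W)⁻¹) ≤ 2 ^ Module.finrank ℝ W := by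
  have h1 : (r ^ Module.finrank ℝ W)⁻¹ ≤ 2 ^ Module.finrank ℝ W := by
    rw [← inv_pow]
    refine pow_le_pow_left₀ (by positivity) ?_ _
    rw [inv_le_comm₀ (by linarith) (by norm_num)]
    linarith
  calc ENNReal.ofReal ((r ^ Module.finrank ℝ W)⁻¹) ≤ ENNReal.ofReal (2 ^ Module.finrank ℝ W) :=
        ENNReal.ofReal_le_ofReal h1
    _ = 2 ^ Module.finrank ℝ W := by
        rw [ENNReal.ofReal_pow (by norm_num)]
        norm_num

/-- the average over pairs, at the parameter `τ` -/
lemma pair_le {f : W → ℝ≥0∞} (hf : Measurable f) {τ : ℝ} (h0 : 0 ≤ τ) (h1 : τ ≤ 1) :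
    ∫⁻ t in closedBall (0 : W) 1, ∫⁻ t' in closedBall (0 : W) 1, f ((1 - τ) • t' + τ • t) ≤
      volume (closedBall (0 : W) 1) *
        (2 ^ Module.finrank ℝ W * ∫⁻ t in closedBall (0 : W) 1, f t) := by
  set B := closedBall (0 : W) 1 with hB
  have hBm : MeasurableSet B := measurableSet_closedBall
  rcases le_total τ (1 / 2) with hτ | hτ
  · calc ∫⁻ t in B, ∫⁻ t' in B, f ((1 - τ) • t' + τ • t)
        ≤ ∫⁻ t in B, (2 ^ Module.finrank ℝ W * ∫⁻ t in B, f t) := by
          refine setLIntegral_mono' hBm fun t ht => ?_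
          rw [hB, mem_closedBall_zero_iff] at ht
          refine (lscale_le hf (by linarith) ?_).trans
            (mul_le_mul_left (half_bound (by linarith)) _)
          rw [norm_smul, Real.norm_of_nonneg h0]
          nlinarith
      _ = _ := by rw [lintegral_const, Measure.restrict_apply_univ, mul_comm]
  · have hm : AEMeasurable (uncurry fun t t' : W => f ((1 - τ) • t' + τ • t))
        ((volume.restrict B).prod (volume.restrict B)) := by
      apply Measurable.aemeasurable
      exact hf.comp (by fun_prop)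
    rw [lintegral_lintegral_swap hm]
    calc ∫⁻ t' in B, ∫⁻ t in B, f ((1 - τ) • t' + τ • t)
        ≤ ∫⁻ t in B, (2 ^ Module.finrank ℝ W * ∫⁻ t in B, f t) := by
          refine setLIntegral_mono' hBm fun t ht => ?_
          rw [hB, mem_closedBall_zero_iff] at ht
          have e : ∀ x, (1 - τ) • t + τ • x = τ • x + (1 - τ) • t := fun x => add_comm _ _
          simp only [e]
          refine (lscale_le hf (by linarith) ?_).trans
            (mul_le_mul_left (half_bound hτ) _)
          rw [norm_smul, Real.norm_of_nonneg (by linarith)]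
          nlinarith
      _ = _ := by rw [lintegral_const, Measure.restrict_apply_univ, mul_comm]

variable {E : Type*} [NormedAddCommGroup E] [NormedSpace ℝ E] [CompleteSpace E]

omit [FiniteDimensional ℝ W] [MeasurableSpace W] [BorelSpace W] in
lemma seg_le {g : W → E} (hg : ContDiff ℝ 1 g) {t t' : W} (ht : ‖t‖ ≤ 1) (ht' : ‖t'‖ ≤ 1) :
    ‖g t - g t'‖ₑ ≤ ∫⁻ τ in Icc (0:ℝ) 1, 2 * ‖fderiv ℝ g ((1 - τ) • t' + τ • t)‖ₑ := by
  have hd : ∀ τ : ℝ, HasDerivAt (fun τ : ℝ => g ((1 - τ) • t' + τ • t))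
      (fderiv ℝ g ((1 - τ) • t' + τ • t) (t - t')) τ := by
    intro τ
    have h1 : HasDerivAt (fun τ : ℝ => (1 - τ) • t' + τ • t) (t - t') τ := by
      have a1 := ((hasDerivAt_id τ).const_sub 1).smul_const t'
      have a2 := (hasDerivAt_id τ).smul_const t
      have a3 := a1.add a2
      have e : (-1 : ℝ) • t' + (1:ℝ) • t = t - t' := by
        rw [neg_one_smul, one_smul]; abel
      rw [← e]
      exact a3
    exact (hg.differentiable one_ne_zero _).hasFDerivAt.comp_hasDerivAt τ h1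
  have hcont : Continuous fun τ : ℝ => fderiv ℝ g ((1 - τ) • t' + τ • t) (t - t') :=
    ((hg.continuous_fderiv one_ne_zero).comp (by fun_prop)).clm_apply continuous_const
  have h2 := intervalIntegral.integral_eq_sub_of_hasDerivAt (a := 0) (b := 1)
    (fun τ _ => hd τ) (hcont.intervalIntegrable _ _)
  simp only [sub_self, zero_smul, one_smul, zero_add, sub_zero, add_zero] at h2
  rw [← h2, intervalIntegral.integral_of_le zero_le_one]
  refine (enorm_integral_le_lintegral_enorm _).trans ?_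
  rw [← restrict_Ioc_eq_restrict_Icc]
  refine lintegral_mono fun τ => ?_
  have h3 : ‖fderiv ℝ g ((1 - τ) • t' + τ • t) (t - t')‖ₑ ≤
      ‖fderiv ℝ g ((1 - τ) • t' + τ • t)‖ₑ * ‖t - t'‖ₑ :=
    (fderiv ℝ g ((1 - τ) • t' + τ • t)).le_opENorm _
  refine h3.trans ?_
  rw [mul_comm]
  refine mul_le_mul_left ?_ _
  rw [← ofReal_norm]
  calc ENNReal.ofReal ‖t - t'‖ ≤ ENNReal.ofReal 2 :=
        ENNReal.ofReal_le_ofReal ((norm_sub_le _ _).trans (by linarith))
    _ = 2 := by norm_num

/-- **Poincaré's inequality** on the unit ball, for the mean value -/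
theorem poincare {g : W → E} (hg : ContDiff ℝ 1 g) :
    ∫⁻ t in closedBall (0 : W) 1, ‖g t - ⨍ t' in closedBall (0 : W) 1, g t'‖ₑ ≤
      2 ^ (Module.finrank ℝ W + 1) * ∫⁻ t in closedBall (0 : W) 1, ‖fderiv ℝ g t‖ₑ := by
  set B := closedBall (0 : W) 1 with hB
  have hBm : MeasurableSet B := measurableSet_closedBall
  have hBc : IsCompact B := isCompact_closedBall _ _
  have hμ : volume B ≠ ⊤ := hBc.measure_lt_top.ne
  have hμ0 : volume B ≠ 0 := (measure_closedBall_pos volume (0:W) one_pos).ne'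
  have hgi : IntegrableOn g B := hg.continuous.continuousOn.integrableOn_compact hBc
  have hμr : (volume.real B) ≠ 0 := by
    rw [Measure.real, ENNReal.toReal_ne_zero]
    exact ⟨hμ0, hμ⟩
  have h1 : ∀ t, ‖g t - ⨍ t' in B, g t'‖ₑ ≤ (volume B)⁻¹ * ∫⁻ t' in B, ‖g t - g t'‖ₑ := by
    intro t
    have hci : IntegrableOn (fun _ : W => g t) B := (continuousOn_const).integrableOn_compact hBc
    have e1 : g t - ⨍ t' in B, g t' = (volume.real B)⁻¹ • ∫ t' in B, (g t - g t') := by
      rw [integral_sub hci hgi, smul_sub, setAverage_eq, setIntegral_const, smul_smul,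
        inv_mul_cancel₀ hμr, one_smul]
    rw [e1, enorm_smul]
    refine mul_le_mul' ?_ (enorm_integral_le_lintegral_enorm _)
    rw [← ofReal_norm, Real.norm_of_nonneg (by positivity),
      ENNReal.ofReal_inv_of_pos (by positivity), Measure.real, ENNReal.ofReal_toReal hμ]
  have hfm : Measurable fun x : W => ‖fderiv ℝ g x‖ₑ :=
    (hg.continuous_fderiv one_ne_zero).enorm.measurable
  calc ∫⁻ t in B, ‖g t - ⨍ t' in B, g t'‖ₑ
      ≤ ∫⁻ t in B, (volume B)⁻¹ * ∫⁻ t' in B, ‖g t - g t'‖ₑ := lintegral_mono h1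
    _ ≤ ∫⁻ t in B, (volume B)⁻¹ * ∫⁻ t' in B,
          ∫⁻ τ in Icc (0:ℝ) 1, 2 * ‖fderiv ℝ g ((1 - τ) • t' + τ • t)‖ₑ := by
        refine setLIntegral_mono' hBm fun t ht => ?_
        refine mul_le_mul' le_rfl ?_
        refine setLIntegral_mono' hBm fun t' ht' => ?_
        rw [hB, mem_closedBall_zero_iff] at ht ht'
        exact seg_le hg ht ht'
    _ = (volume B)⁻¹ * ∫⁻ t in B, ∫⁻ τ in Icc (0:ℝ) 1, ∫⁻ t' in B,
          2 * ‖fderiv ℝ g ((1 - τ) • t' + τ • t)‖ₑ := by
        rw [lintegral_const_mul']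
        · congr 1
          refine lintegral_congr fun t => ?_
          rw [lintegral_lintegral_swap]
          apply Measurable.aemeasurable
          exact (hfm.comp (by fun_prop)).const_mul _
        · exact ENNReal.inv_ne_top.2 hμ0
    _ = (volume B)⁻¹ * ∫⁻ τ in Icc (0:ℝ) 1, ∫⁻ t in B, ∫⁻ t' in B,
          2 * ‖fderiv ℝ g ((1 - τ) • t' + τ • t)‖ₑ := by
        congr 1
        rw [lintegral_lintegral_swap]
        apply Measurable.aemeasurable
        have : Measurable fun q : (W × ℝ) × W =>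
            2 * ‖fderiv ℝ g ((1 - q.1.2) • q.2 + q.1.2 • q.1.1)‖ₑ :=
          (hfm.comp (by fun_prop)).const_mul _
        exact this.lintegral_prod_right'
    _ ≤ (volume B)⁻¹ * ∫⁻ τ in Icc (0:ℝ) 1, (2 * (volume B *
          (2 ^ Module.finrank ℝ W * ∫⁻ t in B, ‖fderiv ℝ g t‖ₑ))) := by
        refine mul_le_mul' le_rfl ?_
        refine setLIntegral_mono' measurableSet_Icc fun τ hτ => ?_
        have h2 := pair_le hfm hτ.1 hτ.2
        calc ∫⁻ t in B, ∫⁻ t' in B, 2 * ‖fderiv ℝ g ((1 - τ) • t' + τ • t)‖ₑ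
            = 2 * ∫⁻ t in B, ∫⁻ t' in B, ‖fderiv ℝ g ((1 - τ) • t' + τ • t)‖ₑ := by
              rw [← lintegral_const_mul' _ _ (by norm_num)]
              refine lintegral_congr fun t => ?_
              rw [lintegral_const_mul' _ _ (by norm_num)]
          _ ≤ _ := mul_le_mul_right h2 _
    _ = 2 ^ (Module.finrank ℝ W + 1) * ∫⁻ t in B, ‖fderiv ℝ g t‖ₑ := by
        rw [lintegral_const, Measure.restrict_apply_univ, Real.volume_Icc, sub_zero,
          ENNReal.ofReal_one, mul_one]
        have e : (volume B)⁻¹ * (2 * (volume B * (2 ^ Module.finrank ℝ W *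
            ∫⁻ t in B, ‖fderiv ℝ g t‖ₑ))) = ((volume B)⁻¹ * volume B) *
            (2 ^ (Module.finrank ℝ W + 1) * ∫⁻ t in B, ‖fderiv ℝ g t‖ₑ) := by
          rw [pow_succ]
          ring
        rw [e, ENNReal.inv_mul_cancel hμ0 hμ, one_mul]

end Pool.Agent.H13.Gap
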